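import Pool.Agent.Helper34.LU.Df

/-!
PROJECT ALLQ (MP_274814_nt), LT2 side: theta functions with Taylor coefficients in a number field
`Q(α)`: definitions.
-/

set_option autoImplicit false

namespace Pool.Agent.Helper53.LE

open Finset Pool.Agent.Helper34.LT LTG Pool.Agent.Helper34.LU
open Pool.Agent.Helper13.LT (PS)

noncomputable section

/-- `f = ∑ A_m(α) z^m / (m! D^(|m|+k))` with `A_m ∈ ℤ[Y]` of degree `≤ d` and with coefficients bounded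
by `B^(|m|+k) ((|m|+k)!)^3`, everywhere convergent -/
def RTA {ι : Type} [Fintype ι] (α : ℂ) (d : ℕ) (B : ℝ) (D k : ℕ) (f : (ι → ℂ) → ℂ) : Prop :=
  ∃ A : (ι → ℕ) → Polynomial ℤ, (∀ m, (A m).natDegree ≤ d) ∧
    (∀ m i, |(((A m).coeff i : ℤ) : ℝ)| ≤
      B ^ (∑ u, m u + k) * ((∑ u, m u + k).factorial : ℝ) ^ 3) ∧
    ∀ z : ι → ℂ, HasSum (fun m : ι → ℕ =>
      Polynomial.aeval α (A m) / ((D : ℂ) ^ (∑ u, m u + k) * ∏ u, ((m u).factorial : ℂ)) *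
        ∏ u, z u ^ m u) (f z)

/-- `RTA` with some constants -/
def RTx {ι : Type} [Fintype ι] (α : ℂ) (f : (ι → ℂ) → ℂ) : Prop :=
  ∃ (d : ℕ) (B : ℝ) (D : ℕ), 1 ≤ B ∧ 1 ≤ D ∧ RTA α d B D 1 f

/-- theta function and lattice of one CM type `s` (half system): as `IsTh`, without arithmetic -/
structure IsTh0 (q : ℕ) (s : Finset ℕ) (ρ : ℕ → ℂ) (κ : s → ℂ) (c : Polynomial ℤ → ℂ)
    (f : (s → ℂ) → ℂ) : Prop where
  half : HS q s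
  rho : ∀ u ∈ s, ρ u ≠ 0
  kap : ∀ u, κ u ≠ 0
  diff : Differentiable ℂ f
  qp : QPS q s ρ κ c f
  ps : ∃ a : (s → ℕ) → ℂ, PS a f
  growth : ∃ C : ℝ, ∀ z, ‖f z‖ ≤ Real.exp (C * (1 + ‖z‖ ^ 2))
  ne : ∃ z, f z ≠ 0
  bpf : ∀ p, ∃ F : (s → ℂ) → ℂ, Differentiable ℂ F ∧ QPS q s ρ κ c F ∧ F p ≠ 0
  imm : ∀ v : s → ℂ, v ≠ 0 → ∃ F G : (s → ℂ) → ℂ, Differentiable ℂ F ∧ Differentiable ℂ G ∧
    QPS q s ρ κ c F ∧ QPS q s ρ κ c G ∧ fderiv ℂ F 0 v * G 0 ≠ F 0 * fderiv ℂ G 0 v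

/-- the same with Taylor coefficients in `Q(α)` -/
structure IsThA (α : ℂ) (q : ℕ) (s : Finset ℕ) (ρ : ℕ → ℂ) (κ : s → ℂ) (c : Polynomial ℤ → ℂ)
    (f : (s → ℂ) → ℂ) : Prop extends IsTh0 q s ρ κ c f where
  rta : RTx α f

/-- output of block H: Taylor coefficients in the number field `E` (as `H_main`) -/
def RTE {ι : Type} [Fintype ι] (E : IntermediateField ℚ ℂ) (a : (ι → ℕ) → ℂ) : Prop :=
  ∃ (D : ℕ) (b : (ι → ℕ) → E), 1 ≤ D ∧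
    (∀ m, ((b m : E) : ℂ) = (D : ℂ) ^ (2 * ∑ u, m u) * (∏ u, ((m u).factorial : ℂ)) * a m) ∧
    (∀ m, IsIntegral ℤ (b m)) ∧
    ∀ (φ : E →+* ℂ) (m : ι → ℕ), ‖φ (b m)‖ ≤ (D : ℝ) ^ (3 * ∑ u, m u) *
      ((∑ u, m u).factorial : ℝ) ^ 3

/-- the point `(X, α)` -/
def pα {σ : Type} (α : ℂ) (X : σ → ℂ) : Option σ → ℂ := fun o => o.elim α X

end

end Pool.Agent.Helper53.LE
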