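import Pool.Agent.Helper53.LE.Vd
import Pool.Agent.Helper59.LU.Za

/-!
PROJECT ALLQ, LT2 side: `Z_app_of` without arithmetic (copy of Helper59/LU/Za with `IsTh0`).
-/

set_option autoImplicit false

namespace Pool.Agent.Helper53.LE

open Finset
open Pool.Agent.Helper34.LT LTG
open Pool.Agent.Helper34.LU
open Pool.Agent.Helper63.LU (Theta2)
open Pool.Agent.Helper59.LU

section

variable {q : ℕ} {s t : Finset ℕ} {ρ1 ρ2 : ℕ → ℂ} {κ1 : s → ℂ} {κ2 : t → ℂ}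
  {c1 c2 : Polynomial ℤ → ℂ} {f : (s → ℂ) → ℂ} {g : (t → ℂ) → ℂ}

theorem gm_bpf (h1 : IsTh0 q s ρ1 κ1 c1 f) (h2 : IsTh0 q t ρ2 κ2 c2 g) :
    ∀ p, ∃ F, Theta (gm q s t ρ1 ρ2) (lm q κ1 κ2) (cm c1 c2) 1 F ∧ F p ≠ 0 := by
  intro p
  obtain ⟨F, d1, p1, n1⟩ := h1.bpf (fun u => p (Sum.inl u))
  obtain ⟨G, d2, p2, n2⟩ := h2.bpf (fun v => p (Sum.inr v))
  exact ⟨_, th_prod d1 d2 p1 p2, mul_ne_zero n1 n2⟩

theorem fd_prod {F : (s → ℂ) → ℂ} {G : (t → ℂ) → ℂ} (hF : Differentiable ℂ F)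
    (hG : Differentiable ℂ G) (a : s ⊕ t → ℂ) :
    fderiv ℂ (fun z : s ⊕ t → ℂ => F (fun u => z (Sum.inl u)) * G (fun v => z (Sum.inr v))) 0 a =
      fderiv ℂ F 0 (fun u => a (Sum.inl u)) * G 0 + F 0 * fderiv ℂ G 0 (fun v => a (Sum.inr v)) := by
  let p1 : (s ⊕ t → ℂ) →L[ℂ] (s → ℂ) :=
    ContinuousLinearMap.pi fun u => ContinuousLinearMap.proj (Sum.inl u)
  let p2 : (s ⊕ t → ℂ) →L[ℂ] (t → ℂ) :=
    ContinuousLinearMap.pi fun v => ContinuousLinearMap.proj (Sum.inr v)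
  have d1 : HasFDerivAt F (fderiv ℂ F 0) (p1 0) := by
    rw [map_zero]
    exact (hF 0).hasFDerivAt
  have d2 : HasFDerivAt G (fderiv ℂ G 0) (p2 0) := by
    rw [map_zero]
    exact (hG 0).hasFDerivAt
  have d3 : HasFDerivAt (fun z : s ⊕ t → ℂ => F (p1 z)) ((fderiv ℂ F 0).comp p1) 0 :=
    d1.comp 0 p1.hasFDerivAt
  have d4 : HasFDerivAt (fun z : s ⊕ t → ℂ => G (p2 z)) ((fderiv ℂ G 0).comp p2) 0 :=
    d2.comp 0 p2.hasFDerivAt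
  have d5 := d3.mul d4
  have d6 : fderiv ℂ (fun z : s ⊕ t → ℂ => F (fun u => z (Sum.inl u)) *
      G (fun v => z (Sum.inr v))) 0 = _ := d5.fderiv
  rw [d6, map_zero, map_zero]
  change F 0 * fderiv ℂ G 0 (fun v => a (Sum.inr v)) + G 0 * fderiv ℂ F 0 (fun u => a (Sum.inl u))
    = _
  ring

theorem gm_imm (h1 : IsTh0 q s ρ1 κ1 c1 f) (h2 : IsTh0 q t ρ2 κ2 c2 g) :
    ∀ a : s ⊕ t → ℂ, a ≠ 0 → ∃ F G, Theta (gm q s t ρ1 ρ2) (lm q κ1 κ2) (cm c1 c2) 1 F ∧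
      Theta (gm q s t ρ1 ρ2) (lm q κ1 κ2) (cm c1 c2) 1 G ∧
      fderiv ℂ F 0 a * G 0 ≠ F 0 * fderiv ℂ G 0 a := by
  intro a ha
  by_cases h : (fun u => a (Sum.inl u)) = (0 : s → ℂ)
  · have h' : (fun v => a (Sum.inr v)) ≠ (0 : t → ℂ) := by
      intro h''
      apply ha
      funext i
      rcases i with u | v
      · exact congrFun h u
      · exact congrFun h'' v
    obtain ⟨G1, G2, d1, d2, p1, p2, hne⟩ := h2.imm _ h'
    obtain ⟨F, d3, p3, n3⟩ := h1.bpf 0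
    refine ⟨_, _, th_prod d3 d1 p3 p1, th_prod d3 d2 p3 p2, ?_⟩
    rw [fd_prod d3 d1, fd_prod d3 d2]
    intro h3
    apply hne
    have h4 : F 0 * F 0 * (fderiv ℂ G1 0 (fun v => a (Sum.inr v)) * G2 0) =
        F 0 * F 0 * (G1 0 * fderiv ℂ G2 0 (fun v => a (Sum.inr v))) := by
      linear_combination h3
    exact mul_left_cancel₀ (mul_ne_zero n3 n3) h4
  · obtain ⟨F1, F2, d1, d2, p1, p2, hne⟩ := h1.imm _ h
    obtain ⟨G, d3, p3, n3⟩ := h2.bpf 0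
    refine ⟨_, _, th_prod d1 d3 p1 p3, th_prod d2 d3 p2 p3, ?_⟩
    rw [fd_prod d1 d3, fd_prod d2 d3]
    intro h3
    apply hne
    have h4 : G 0 * G 0 * (fderiv ℂ F1 0 (fun u => a (Sum.inl u)) * F2 0) =
        G 0 * G 0 * (F1 0 * fderiv ℂ F2 0 (fun u => a (Sum.inl u))) := by
      linear_combination h3
    exact mul_left_cancel₀ (mul_ne_zero n3 n3) h4

theorem card_two (hs : HS q s) (ht : HS q t) (hcs : s.card = q.totient / 2)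
    (hct : t.card = q.totient / 2) : Fintype.card (s ⊕ t) ≤ q := by
  rw [Fintype.card_sum, Fintype.card_coe, Fintype.card_coe, hcs, hct]
  have h1 := Nat.totient_le q
  omega

/-- the zero estimate, from the general one -/
theorem Z_app_of (h1 : IsTh0 q s ρ1 κ1 c1 f) (h2 : IsTh0 q t ρ2 κ2 c2 g)
    (hcard : Fintype.card (s ⊕ t) ≤ q)
    (hth : ∀ (L : ℕ) (b : JJ s t L → ℂ),
      Theta2 (gm q s t ρ1 ρ2) (lm q κ1 κ2) (cm c1 c2) (sgm ρ1 ρ2 κ1 κ2) 1 (q * L)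
        (fun x => ∑ j, b j * Vx f g j x))
    (hne : ∀ (L : ℕ) (b : JJ s t L → ℂ), b ≠ 0 → ∃ x, ∑ j, b j * Vx f g j x ≠ 0)
    (hZ : ∃ C : ℕ, ∀ W : Submodule ℂ (II s t → ℂ),
      (∀ H : Submodule ℂ (II s t → ℂ), H ≠ ⊤ →
        (∀ x ∈ H, Sum.elim (0 : s ⊕ t → ℂ) (fun i => x (Sum.inr i) -
          sgm ρ1 ρ2 κ1 κ2 (fun j => x (Sum.inl j)) i) ∈ H) →
        (∀ x ∈ H, (fun i => x (Sum.inl i)) ∈ Submodule.span ℝ
          {y : s ⊕ t → ℂ | ∃ a, y = gm q s t ρ1 ρ2 a ∧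
            Sum.elim (gm q s t ρ1 ρ2 a) (sgm ρ1 ρ2 κ1 κ2 (gm q s t ρ1 ρ2 a)) ∈ H}) →
        ¬ W ≤ H ∧ Fintype.card (s ⊕ t) + Module.finrank ℂ (W ⊓ H : Submodule ℂ (II s t → ℂ)) ≤
          Module.finrank ℂ W + Module.finrank ℂ
            (H ⊓ LinearMap.ker (LinearMap.funLeft ℂ ℂ (Sum.inl : s ⊕ t → (s ⊕ t) ⊕ (s ⊕ t))) :
              Submodule ℂ (II s t → ℂ))) →
      ∀ k L : ℕ, 1 ≤ k → 1 ≤ L → ∀ F,
        Theta2 (gm q s t ρ1 ρ2) (lm q κ1 κ2) (cm c1 c2) (sgm ρ1 ρ2 κ1 κ2) k L F →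
        (∃ z, F z ≠ 0) → ∀ T : ℕ, 1 ≤ T →
        (∀ v ∈ W, ∀ j ≤ 2 * Fintype.card (s ⊕ t) * T,
          iteratedDeriv j (fun s : ℂ => F (s • v)) 0 = 0) →
        T ≤ C * k ^ Fintype.card (s ⊕ t) * L)
    (hsemi : ∀ X : II s t → ℂ, (∀ i, X i ≠ 0) → ∀ H : Submodule ℂ (II s t → ℂ), H ≠ ⊤ →
      (∀ x ∈ H, Sum.elim (0 : s ⊕ t → ℂ) (fun i => x (Sum.inr i) -
          sgm ρ1 ρ2 κ1 κ2 (fun j => x (Sum.inl j)) i) ∈ H) →
      (∀ x ∈ H, (fun i => x (Sum.inl i)) ∈ Submodule.span ℝ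
          {y : s ⊕ t → ℂ | ∃ a, y = gm q s t ρ1 ρ2 a ∧
            Sum.elim (gm q s t ρ1 ρ2 a) (sgm ρ1 ρ2 κ1 κ2 (gm q s t ρ1 ρ2 a)) ∈ H}) →
      ¬ LinearMap.range (wvl h1.half h2.half X) ≤ H ∧ Fintype.card (s ⊕ t) +
        Module.finrank ℂ (LinearMap.range (wvl h1.half h2.half X) ⊓ H :
          Submodule ℂ (II s t → ℂ)) ≤
          Module.finrank ℂ (LinearMap.range (wvl h1.half h2.half X)) + Module.finrank ℂ
            (H ⊓ LinearMap.ker (LinearMap.funLeft ℂ ℂ (Sum.inl : s ⊕ t → (s ⊕ t) ⊕ (s ⊕ t))) :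
              Submodule ℂ (II s t → ℂ))) :
    ∃ C : ℕ, ∀ X : II s t → ℂ, (∀ i, X i ≠ 0) → ∀ L : ℕ, 1 ≤ L →
      ∀ b : JJ s t L → ℂ, b ≠ 0 → ∀ T : ℕ,
      (∀ x : UU q → ℂ, ∀ j ≤ 2 * q * T,
        iteratedDeriv j (fun z : ℂ => ∑ k, b k * Vx f g k (wv h1.half h2.half X (z • x))) 0 = 0) →
      T ≤ C * L := by
  obtain ⟨C, hC⟩ := hZ
  refine ⟨C * q, fun X hX L hL b hb T hT => ?_⟩
  rcases Nat.eq_zero_or_pos T with h0 | h0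
  · rw [h0]
    exact Nat.zero_le _
  have hq := h1.half.three
  have h3 := hC (LinearMap.range (wvl h1.half h2.half X)) (hsemi X hX) 1 (q * L) le_rfl
    (Nat.mul_pos (by omega) hL) _ (hth L b) (hne L b hb) T h0 (by
      rintro _ ⟨x, rfl⟩ j hj
      have h4 : (fun z : ℂ => ∑ k, b k * Vx f g k (z • wvl h1.half h2.half X x)) =
          fun z : ℂ => ∑ k, b k * Vx f g k (wv h1.half h2.half X (z • x)) := by
        funext z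
        rw [← map_smul]
        rfl
      rw [h4]
      refine hT x j (hj.trans ?_)
      exact Nat.mul_le_mul_right _ (Nat.mul_le_mul_left _ hcard))
  rw [one_pow, mul_one] at h3
  calc T ≤ C * (q * L) := h3
    _ = C * q * L := by ring

end

end Pool.Agent.Helper53.LE
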