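import Pool.Agent.Helper53.LE.Bm
import Pool.Agent.Helper53.LE.Za
import Pool.Agent.Helper53.LX.Th
import Pool.Agent.Helper16.LV.E
import Pool.Agent.Helper63.LU.Ym

/-!
PROJECT ALLQ, LT2 side: `B_main_E` and `Z_app_E`.
-/

set_option autoImplicit false

namespace Pool.Agent.Helper53.LE

open Finset Pool.Agent.Helper34.LT LTG Pool.Agent.Helper34.LU
open Pool.Agent.Helper63.LU (Theta2)

variable (q : ℕ) (s t : Finset ℕ) (ρ1 ρ2 : ℕ → ℂ) (κ1 : s → ℂ) (κ2 : t → ℂ)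
  (c1 c2 : Polynomial ℤ → ℂ) (f : (s → ℂ) → ℂ) (g : (t → ℂ) → ℂ)

theorem Vx_differentiable (h1 : IsTh0 q s ρ1 κ1 c1 f) (h2 : IsTh0 q t ρ2 κ2 c2 g) (L : ℕ)
    (j : JJ s t L) : Differentiable ℂ (Vx f g j) := by
  classical
  have h := (V_theta q s t ρ1 ρ2 κ1 κ2 c1 c2 f g h1 h2 L (Pi.single j 1)).1
  have e : (fun x => ∑ k, (Pi.single j (1 : ℂ) : JJ s t L → ℂ) k * Vx f g k x) = Vx f g j := by
    funext x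
    rw [Finset.sum_eq_single j]
    · rw [Pi.single_eq_same, one_mul]
    · intro b _ hb
      rw [Pi.single_eq_of_ne hb, zero_mul]
    · intro hj
      exact absurd (Finset.mem_univ j) hj
  rwa [e] at h

theorem B_main_E (h1 : IsTh0 q s ρ1 κ1 c1 f) (h2 : IsTh0 q t ρ2 κ2 c2 g)
    (hk1 : ∀ u (hu : u ∈ s) (hv : u ∈ t), κ1 ⟨u, hu⟩ * ρ1 u + κ2 ⟨u, hv⟩ * ρ2 u ≠ 0)
    (hk2 : ∀ u (hu : u ∈ s) (hv : q - u ∈ t),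
      κ1 ⟨u, hu⟩ * ρ1 u - κ2 ⟨q - u, hv⟩ * ρ2 (q - u) ≠ 0)
    (e : ℕ) (he : 1 ≤ e) :
    ∃ C : ℝ, 0 < C ∧ ∀ L : ℕ, 1 ≤ L → ∀ S U : ℝ, 1 ≤ S → S ≤ U →
      C * (L * Real.log (L + 2)) ≤ U →
      C * (L : ℝ) ^ (e * (q.totient / 2 - (s \ t).card)) * U ^ (e * (s \ t).card + 1) ≤
        (L : ℝ) ^ (e * (2 * (q.totient / 2))) * S →
      ∃ c : (Fin e → JJ s t L) → ℤ, c ≠ 0 ∧ (∀ k, |(c k : ℝ)| ≤ Real.exp S) ∧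
        ∀ x : Fin e → UU q → ℂ, (∀ i, ‖x i‖ ≤ 1) →
          ‖∑ k, (c k : ℂ) *
            ∏ i, Vx f g (k i) (wv h1.half h2.half (tru ρ1 ρ2 κ1 κ2) (x i))‖ ≤ Real.exp (-U) :=
  B_main_of q s t ρ1 ρ2 κ1 κ2 c1 c2 f g h1 h2
    (Vx_differentiable q s t ρ1 ρ2 κ1 κ2 c1 c2 f g h1 h2)
    (V_growth q s t ρ1 ρ2 κ1 κ2 c1 c2 f g h1 h2)
    (V_per q s t ρ1 ρ2 κ1 κ2 c1 c2 f g h1 h2)
    (fun L j X w hs ht R => V_poly q s t ρ1 ρ2 κ1 κ2 c1 c2 f g h1 h2 L j X w hs ht R)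
    hk1 hk2 e he

theorem Z_app_E (h1 : IsTh0 q s ρ1 κ1 c1 f) (h2 : IsTh0 q t ρ2 κ2 c2 g) (hst : s ≠ t) :
    ∃ C : ℕ, ∀ X : II s t → ℂ, (∀ i, X i ≠ 0) → ∀ L : ℕ, 1 ≤ L →
      ∀ b : JJ s t L → ℂ, b ≠ 0 → ∀ T : ℕ,
      (∀ x : UU q → ℂ, ∀ j ≤ 2 * q * T,
        iteratedDeriv j (fun z : ℂ => ∑ k, b k * Vx f g k (wv h1.half h2.half X (z • x))) 0 = 0) →
      T ≤ C * L :=
  Z_app_of h1 h2
    (Pool.Agent.Helper59.LU.card_two h1.half h2.half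
      (Pool.Agent.Helper53.LX.card_half q s h1.half) (Pool.Agent.Helper53.LX.card_half q t h2.half))
    (V_theta q s t ρ1 ρ2 κ1 κ2 c1 c2 f g h1 h2)
    (V_ne q s t ρ1 ρ2 κ1 κ2 c1 c2 f g h1 h2)
    (Pool.Agent.Helper63.LU.Z2_semi (gm q s t ρ1 ρ2) (lm q κ1 κ2) (cm c1 c2) (sgm ρ1 ρ2 κ1 κ2)
      (Pool.Agent.Helper59.LU.lm_eq h1.rho h2.rho)
      (Pool.Agent.Helper59.LU.gm_cocompact h1.half h2.half h1.rho h2.rho)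
      (gm_bpf h1 h2) (gm_imm h1 h2))
    (fun X hX H hH _ hS =>
      Pool.Agent.Helper16.LV.semi_app h1.half h2.half h1.rho h2.rho h1.kap h2.kap hst X hX H hH hS)

end Pool.Agent.Helper53.LE
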