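import Pool.Agent.Helper53.LE.Nf

/-!
PROJECT ALLQ, LT2 side: `RTE_RTA`: Taylor coefficients in a number field are integer polynomials in
one algebraic number `α`.
-/

set_option autoImplicit false

namespace Pool.Agent.Helper53.LE

open Finset
open Pool.Agent.Helper13.LT (PS)

/-- one function -/
theorem RTE_RTx {ι : Type} [Fintype ι] (E F : IntermediateField ℚ ℂ) (hEF : E ≤ F)
    (a : (ι → ℕ) → ℂ) (ha : RTE E a) (f : (ι → ℂ) → ℂ) (hf : PS a f)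
    (α : F) (N d : ℕ) (C : ℝ) (hN : 1 ≤ N) (hC : 1 ≤ C)
    (h : ∀ x : F, IsIntegral ℤ x → ∀ B : ℝ, (∀ φ : F →+* ℂ, ‖φ x‖ ≤ B) →
      ∃ A : Polynomial ℤ, A.natDegree ≤ d ∧ (∀ i, |((A.coeff i : ℤ) : ℝ)| ≤ C * B) ∧
        Polynomial.aeval α A = (N : F) * x) : RTx (α : ℂ) f := by
  classical
  obtain ⟨D, b, hD, hb1, hb2, hb3⟩ := ha
  obtain ⟨inc, hinc⟩ : ∃ inc : E →+* F, ∀ x : E, ((inc x : F) : ℂ) = x :=
    ⟨(IntermediateField.inclusion hEF).toRingHom, fun x => rfl⟩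
  have hDR : (1 : ℝ) ≤ D := by exact_mod_cast hD
  have hNR : (1 : ℝ) ≤ N := by exact_mod_cast hN
  choose A hA1 hA2 hA3 using fun m : ι → ℕ => h (inc (b m)) ((hb2 m).map inc.toIntAlgHom)
    ((D : ℝ) ^ (3 * ∑ u, m u) * ((∑ u, m u).factorial : ℝ) ^ 3)
    (fun φ => hb3 (φ.comp inc) m)
  refine ⟨d, C * D ^ 3 * N, N * D ^ 2, ?_, Nat.mul_pos hN (pow_pos hD 2),
    fun m => Polynomial.C ((N : ℤ) ^ (∑ u, m u) * (D : ℤ) ^ 2) * A m, fun m => ?_, fun m i => ?_,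
    fun z => ?_⟩
  · have h1 : (1 : ℝ) ≤ (D : ℝ) ^ 3 := one_le_pow₀ hDR
    have h2 : (1 : ℝ) ≤ C * (D : ℝ) ^ 3 := one_le_mul_of_one_le_of_one_le hC h1
    exact one_le_mul_of_one_le_of_one_le h2 hNR
  · exact (Polynomial.natDegree_C_mul_le _ _).trans (hA1 m)
  · rw [Polynomial.coeff_C_mul]
    push_cast
    rw [abs_mul, abs_of_nonneg (by positivity)]
    have h1 := hA2 m i
    have h2 : ((∑ u, m u).factorial : ℝ) ≤ ((∑ u, m u + 1).factorial : ℝ) := by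
      exact_mod_cast Nat.factorial_le (Nat.le_succ _)
    have h3 : (1 : ℝ) ≤ C ^ (∑ u, m u) := one_le_pow₀ hC
    calc (N : ℝ) ^ (∑ u, m u) * (D : ℝ) ^ 2 * |((A m).coeff i : ℝ)|
        ≤ (N : ℝ) ^ (∑ u, m u) * (D : ℝ) ^ 2 *
          (C * ((D : ℝ) ^ (3 * ∑ u, m u) * ((∑ u, m u).factorial : ℝ) ^ 3)) := by gcongr
      _ ≤ (N : ℝ) ^ (∑ u, m u + 1) * (D : ℝ) ^ 3 *
          ((C * C ^ (∑ u, m u)) * ((D : ℝ) ^ (3 * ∑ u, m u) *
            ((∑ u, m u + 1).factorial : ℝ) ^ 3)) := by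
          have h4 : (N : ℝ) ^ (∑ u, m u) ≤ (N : ℝ) ^ (∑ u, m u + 1) :=
            pow_le_pow_right₀ hNR (Nat.le_succ _)
          have h5 : (D : ℝ) ^ 2 ≤ (D : ℝ) ^ 3 := pow_le_pow_right₀ hDR (by norm_num)
          have h6 : C ≤ C * C ^ (∑ u, m u) := le_mul_of_one_le_right (by linarith) h3
          gcongr
      _ = (C * D ^ 3 * N) ^ (∑ u, m u + 1) * ((∑ u, m u + 1).factorial : ℝ) ^ 3 := by
          rw [mul_pow, mul_pow, ← pow_mul, pow_succ C, mul_add, pow_add (D : ℝ)]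
          ring
  · refine (hf z).congr_fun ?_
    intro m
    congr 1
    have h1 : Polynomial.aeval (α : ℂ) (A m) = (N : ℂ) * (b m : ℂ) := by
      have h2 := congrArg (fun x : F => (x : ℂ)) (hA3 m)
      simp only [MulMemClass.coe_mul] at h2
      rw [hinc] at h2
      have h3 : Polynomial.aeval (α : ℂ) (A m) = ((Polynomial.aeval α (A m) : F) : ℂ) := by
        have h4 := Polynomial.aeval_algebraMap_apply ℂ α (A m)
        exact h4
      rw [h3, h2]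
      norm_cast
    have hN0 : (N : ℂ) ≠ 0 := by exact_mod_cast (by omega : N ≠ 0)
    have hD0 : (D : ℂ) ≠ 0 := by exact_mod_cast (by omega : D ≠ 0)
    have hf0 : (∏ u, ((m u).factorial : ℂ)) ≠ 0 :=
      Finset.prod_ne_zero_iff.2 fun u _ => Nat.cast_ne_zero.2 (Nat.factorial_ne_zero _)
    rw [map_mul, Polynomial.aeval_C, h1, hb1 m]
    simp only [algebraMap_int_eq, eq_intCast]
    push_cast
    rw [mul_pow, ← pow_mul, mul_add, pow_add (D : ℂ), pow_succ (N : ℂ)]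
    field_simp
    ring

/-- two functions, one `α` -/
theorem RTE_RTA {ι κ : Type} [Fintype ι] [Fintype κ] (E E' : IntermediateField ℚ ℂ)
    [FiniteDimensional ℚ E] [FiniteDimensional ℚ E'] (a : (ι → ℕ) → ℂ) (b : (κ → ℕ) → ℂ)
    (ha : RTE E a) (hb : RTE E' b) (f : (ι → ℂ) → ℂ) (g : (κ → ℂ) → ℂ) (hf : PS a f)
    (hg : PS b g) :
    ∃ α : ℂ, α ≠ 0 ∧ IsIntegral ℤ α ∧ RTx α f ∧ RTx α g := by
  have h1 : FiniteDimensional ℚ (E ⊔ E' : IntermediateField ℚ ℂ) :=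
    IntermediateField.finiteDimensional_sup E E'
  have h2 : NumberField (E ⊔ E' : IntermediateField ℚ ℂ) := { to_charZero := inferInstance, to_finiteDimensional := h1 }
  obtain ⟨α, N, d, C, hα0, hα, hN, hC, h⟩ := repr_poly (E ⊔ E' : IntermediateField ℚ ℂ)
  refine ⟨(α : ℂ), ?_, ?_, ?_, ?_⟩
  · intro h3
    exact hα0 (Subtype.ext h3)
  · exact hα.map ((E ⊔ E' : IntermediateField ℚ ℂ).val.toRingHom.toIntAlgHom)
  · exact RTE_RTx E _ le_sup_left a ha f hf α N d C hN hC h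
  · exact RTE_RTx E' _ le_sup_right b hb g hg α N d C hN hC h

end Pool.Agent.Helper53.LE
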