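import Pool.Agent.Helper53.LE.Vd
import Pool.Agent.Helper53.LX.Bm3

/-!
PROJECT ALLQ, LT2 side: `B_main_of` without arithmetic (copy of Helper53/LX/Bm3 with `IsTh0`).
-/

set_option autoImplicit false

namespace Pool.Agent.Helper53.LE

open Finset Pool.Agent.Helper34.LT LTG Pool.Agent.Helper34.LU
open Pool.Agent.Helper93.LX (wI BXI)
open Pool.Agent.Helper59.LT (zt_pow zt_prim zt_ne zt_conj zt_norm)
open Pool.Agent.Helper53.LX

noncomputable section

/-- the box principle for the vector functions; `hVd .. hVq` are properties of the vector functions -/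
theorem B_main_of (q : ℕ) (s t : Finset ℕ) (ρ1 ρ2 : ℕ → ℂ) (κ1 : s → ℂ) (κ2 : t → ℂ)
    (c1 c2 : Polynomial ℤ → ℂ) (f : (s → ℂ) → ℂ) (g : (t → ℂ) → ℂ)
    (h1 : IsTh0 q s ρ1 κ1 c1 f) (h2 : IsTh0 q t ρ2 κ2 c2 g)
    (hVd : ∀ (L : ℕ) (j : JJ s t L), Differentiable ℂ (Vx f g j))
    (hVg : ∃ C : ℝ, ∀ (L : ℕ) (j : JJ s t L) (x : II s t → ℂ),
      ‖Vx f g j x‖ ≤ Real.exp (C * (L * Real.log (L + 2) + ‖x‖ ^ 2 + 1)))
    (hVp : ∀ (L : ℕ) (j : JJ s t L) (P : Polynomial ℤ) (x : UU q → ℂ),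
      Vx f g j (wv h1.half h2.half (tru ρ1 ρ2 κ1 κ2) (x + pt q (UU q) P)) =
      Complex.exp (∑ u : s, κ1 u * ρ1 u * (starRingEnd ℂ) (pt q s P u) *
          x ⟨u, HS_mem h1.half u⟩ +
        ∑ v : t, κ2 v * ρ2 v * (starRingEnd ℂ) (pt q t P v) * x ⟨v, HS_mem h2.half v⟩ +
        (c1 P + c2 P)) *
      Vx f g j (wv h1.half h2.half (tru ρ1 ρ2 κ1 κ2) x))
    (hVq : ∀ (L : ℕ) (j : JJ s t L) (X : II s t → ℂ) (w : UU q), (w : ℕ) ∉ s → (w : ℕ) ∉ t →
      ∀ R : ℝ, ∃ B : ℝ, ∀ (x : UU q → ℂ) (z : ℂ), ‖x‖ ≤ R →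
      ‖Vx f g j (wv h1.half h2.half X (Function.update x w z))‖ ≤ B * (1 + ‖z‖) ^ (2 * L))
    (hk1 : ∀ u (hu : u ∈ s) (hv : u ∈ t), κ1 ⟨u, hu⟩ * ρ1 u + κ2 ⟨u, hv⟩ * ρ2 u ≠ 0)
    (hk2 : ∀ u (hu : u ∈ s) (hv : q - u ∈ t),
      κ1 ⟨u, hu⟩ * ρ1 u - κ2 ⟨q - u, hv⟩ * ρ2 (q - u) ≠ 0)
    (e : ℕ) (he : 1 ≤ e) :
    ∃ C : ℝ, 0 < C ∧ ∀ L : ℕ, 1 ≤ L → ∀ S U : ℝ, 1 ≤ S → S ≤ U →
      C * (L * Real.log (L + 2)) ≤ U →
      C * (L : ℝ) ^ (e * (q.totient / 2 - (s \ t).card)) * U ^ (e * (s \ t).card + 1) ≤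
        (L : ℝ) ^ (e * (2 * (q.totient / 2))) * S →
      ∃ c : (Fin e → JJ s t L) → ℤ, c ≠ 0 ∧ (∀ k, |(c k : ℝ)| ≤ Real.exp S) ∧
        ∀ x : Fin e → UU q → ℂ, (∀ i, ‖x i‖ ≤ 1) →
          ‖∑ k, (c k : ℂ) *
            ∏ i, Vx f g (k i) (wv h1.half h2.half (tru ρ1 ρ2 κ1 κ2) (x i))‖ ≤ Real.exp (-U) := by
  classical
  have h3 := h1.half.three
  have hq : q ≠ 0 := by omega
  obtain ⟨G, hG⟩ : ∃ G, G = q.totient / 2 := ⟨_, rfl⟩
  rw [← hG]
  have hsc : s.card = G := by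
    have := card_HS q s h1.half
    omega
  have htc : t.card = G := by
    have := card_HS q t h2.half
    omega
  obtain ⟨r, hr⟩ : ∃ r, r = (s \ t).card := ⟨_, rfl⟩
  rw [← hr]
  have hrG : r ≤ G := by
    rw [hr, ← hsc]
    exact Finset.card_le_card Finset.sdiff_subset
  have hHc : (univ.filter fun u : UU q => (u : ℕ) ∈ s).card = G := by
    rw [card_H q s h1.half, hsc]
  have hVc : (univ.filter fun u : UU q => (u : ℕ) ∉ s ∧ (u : ℕ) ∉ t).card = G - r := by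
    rw [card_V q s t h1.half h2.half, hsc, hr]
  -- base functions
  obtain ⟨Fa, hFa1, hFa2, hFa3⟩ := h1.bpf 0
  obtain ⟨Fb, hFb1, hFb2, hFb3⟩ := h2.bpf 0
  obtain ⟨Ca, hCa⟩ := h1.growth
  obtain ⟨Cb, hCb⟩ := h2.growth
  obtain ⟨Da, hDa0, hDa⟩ := cQ_bound q G hq s ρ1 κ1 c1 f h1.qp Ca hCa h1.ne
  obtain ⟨Db, hDb0, hDb⟩ := cQ_bound q G hq t ρ2 κ2 c2 g h2.qp Cb hCb h2.ne
  obtain ⟨CV, hCV⟩ := hVg
  obtain ⟨X, hX⟩ : ∃ X : II s t → ℂ, X = tru ρ1 ρ2 κ1 κ2 := ⟨_, rfl⟩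
  rw [← hX] at hVp ⊢
  obtain ⟨C0, hC0⟩ : ∃ C0 : ℝ, C0 = Da + Db + |CV| * (1 + ‖X‖ ^ 2) := ⟨_, rfl⟩
  have hC0' : Da + Db ≤ C0 := by
    rw [hC0]
    have : 0 ≤ |CV| * (1 + ‖X‖ ^ 2) := by positivity
    linarith
  have hqpF := qp_split q G hq (KK q s t ρ1 ρ2 κ1 κ2) (fun P => c1 P + c2 P)
    (FV q s t ρ1 ρ2 h1.half h2.half Fa Fb)
    (fun P x => FV_qp q s t ρ1 ρ2 h1.half h2.half κ1 κ2 c1 c2 Fa Fb hFa2 hFb2 P x)
  obtain ⟨C, hC, hmain⟩ := BXI (σ := UU q) e he (bnu q) (bnu_bnu q)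
    (univ.filter fun u : UU q => (u : ℕ) ∈ s)
    (fun u => by
      rw [mem_filter, mem_filter]
      have := half_nu q s h1.half u
      simp only [mem_univ, true_and]
      exact this)
    G hHc (bth q) (bta q) (bth_nu q)
    (fun u hu v hv huv => bth_inj q u v huv fun h => by
      rw [mem_filter] at hu hv
      have h4 := (half_nu q s h1.half u).1 hu.2
      rw [← h] at h4
      exact h4 hv.2)
    (bta_nu q) (bta_ne q h3) (KK q s t ρ1 ρ2 κ1 κ2)
    (KK_ne q s t h1.half h2.half ρ1 ρ2 κ1 κ2 hk1 hk2)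
    (univ.filter fun u : UU q => (u : ℕ) ∉ s ∧ (u : ℕ) ∉ t)
    (fun u hu => by
      rw [mem_filter] at hu
      refine ⟨fun h => hu.2.1 (mem_filter.1 h).2, ?_⟩
      unfold KK
      rw [dif_neg hu.2.1, dif_neg hu.2.2, add_zero])
    (fun j => c1 (PR q j) + c2 (PR q j)) (fun b => c1 (PQ q G b) + c2 (PQ q G b)) C0 1
    (fun b => by
      rw [Complex.add_re]
      have h4 := hDa b
      have h5 := hDb b
      have h6 : 0 ≤ 1 + ‖b‖ ^ 2 := by positivity
      have h7 := mul_le_mul_of_nonneg_right hC0' h6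
      linarith)
    (FV q s t ρ1 ρ2 h1.half h2.half Fa Fb) hqpF.1 hqpF.2
    (by
      unfold FV
      refine mul_ne_zero ?_ ?_
      · have : (fun u : s => ρ1 u * (0 : UU q → ℂ) ⟨u, HS_mem h1.half u⟩) = 0 := by
          funext u
          simp
        rw [this]
        exact hFa3
      · have : (fun u : t => ρ2 u * (0 : UU q → ℂ) ⟨u, HS_mem h2.half u⟩) = 0 := by
          funext u
          simp
        rw [this]
        exact hFb3)
  rw [hVc] at hmain
  have hGr : G - (G - r) = r := by omega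
  rw [hGr] at hmain
  refine ⟨C * 3 ^ (e * G) + |CV| + 2 * e * G + 1, by positivity, ?_⟩
  intro L hL S U hS hSU hLU hbig
  have hL1 : (1 : ℝ) ≤ L := by exact_mod_cast hL
  have hlog : 0 ≤ Real.log (L + 2) := Real.log_nonneg (by linarith)
  have hLl : 0 ≤ L * Real.log (L + 2) := by positivity
  have hU0 : 0 ≤ U := by linarith
  have hcard : (Fintype.card (JJ s t L) : ℝ) = ((L : ℝ) + 1) ^ (2 * G) := by
    have h4 : Fintype.card (JJ s t L) = (L + 1) ^ (2 * G) := by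
      rw [Fintype.card_prod, Fintype.card_fun, Fintype.card_fun, Fintype.card_fin,
        Fintype.card_coe, Fintype.card_coe, hsc, htc, ← pow_add]
      congr 1
      omega
    rw [h4]
    push_cast
    rfl
  have hcardI : (Fintype.card (JJ s t L) : ℝ) ^ e ≤ Real.exp U := by
    rw [hcard, ← pow_mul]
    have h4 : ((L : ℝ) + 1) ^ (2 * G * e) = Real.exp ((2 * G * e : ℕ) * Real.log (L + 1)) := by
      rw [Real.exp_nat_mul, Real.exp_log (by positivity)]
    rw [h4]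
    refine Real.exp_le_exp.2 (le_trans ?_ hLU)
    have h5 : Real.log (L + 1) ≤ L * Real.log (L + 2) := by
      have h6 : Real.log (L + 1) ≤ Real.log (L + 2) := Real.log_le_log (by positivity) (by linarith)
      nlinarith
    have h6 : ((2 * G * e : ℕ) : ℝ) * Real.log (L + 1) ≤ (2 * e * G) * (L * Real.log (L + 2)) := by
      have h7 : ((2 * G * e : ℕ) : ℝ) = 2 * e * G := by
        push_cast
        ring
      rw [h7]
      exact mul_le_mul_of_nonneg_left h5 (by positivity)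
    refine h6.trans (mul_le_mul_of_nonneg_right ?_ hLl)
    have h8 : 0 ≤ C * 3 ^ (e * G) + |CV| + 1 := by positivity
    linarith
  obtain ⟨c, hc0, hc1, hc2⟩ := hmain (2 * L) (JJ s t L)
    (fun j x => Vx f g j (wv h1.half h2.half X x))
    (fun j => (hVd L j).comp (wv_diff h1.half h2.half X))
    (fun j => (qp_split q G hq (KK q s t ρ1 ρ2 κ1 κ2) (fun P => c1 P + c2 P)
      (fun x => Vx f g j (wv h1.half h2.half X x)) (fun P x => by
        rw [← KK_sum q s t ρ1 ρ2 κ1 κ2 h1.half h2.half P x]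
        exact hVp L j P x)).1)
    (fun j => (qp_split q G hq (KK q s t ρ1 ρ2 κ1 κ2) (fun P => c1 P + c2 P)
      (fun x => Vx f g j (wv h1.half h2.half X x)) (fun P x => by
        rw [← KK_sum q s t ρ1 ρ2 κ1 κ2 h1.half h2.half P x]
        exact hVp L j P x)).2)
    (by
      intro j v hv R
      rw [mem_filter] at hv
      obtain ⟨B, hB⟩ := hVq L j X v hv.2.1 hv.2.2 R
      refine ⟨|B| * (1 + |R|) ^ (2 * L), fun z a hz => ?_⟩
      have e1 : z + a • (Pi.single v 1 : UU q → ℂ) = Function.update z v (z v + a) := by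
        funext u
        by_cases hu : u = v
        · subst hu
          simp
        · rw [Function.update_of_ne hu]
          simp [hu]
      rw [e1]
      refine (hB z (z v + a) hz).trans ?_
      have h4 : ‖z v + a‖ ≤ |R| + ‖a‖ := by
        refine (norm_add_le _ _).trans ?_
        have h5 := norm_le_pi_norm z v
        have h6 := le_abs_self R
        linarith
      have h5 : 1 + ‖z v + a‖ ≤ (1 + |R|) * (1 + ‖a‖) := by
        have h6 : 0 ≤ |R| * ‖a‖ := by positivity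
        nlinarith
      calc B * (1 + ‖z v + a‖) ^ (2 * L) ≤ |B| * (1 + ‖z v + a‖) ^ (2 * L) :=
            mul_le_mul_of_nonneg_right (le_abs_self B) (by positivity)
        _ ≤ |B| * ((1 + |R|) * (1 + ‖a‖)) ^ (2 * L) :=
            mul_le_mul_of_nonneg_left (pow_le_pow_left₀ (by positivity) h5 _) (abs_nonneg B)
        _ = |B| * (1 + |R|) ^ (2 * L) * (1 + ‖a‖) ^ (2 * L) := by
            rw [mul_pow]
            ring)
    (|CV| * (L * Real.log (L + 2)))
    (by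
      intro j z
      refine (hCV L j _).trans (Real.exp_le_exp.2 ?_)
      have h4 := wv_norm h1.half h2.half X z
      have h5 : ‖wv h1.half h2.half X z‖ ^ 2 ≤ ‖X‖ ^ 2 * ‖z‖ ^ 2 := by
        calc ‖wv h1.half h2.half X z‖ ^ 2 ≤ (‖X‖ * ‖z‖) ^ 2 :=
              pow_le_pow_left₀ (norm_nonneg _) h4 2
          _ = _ := by ring
      have h6 : 0 ≤ L * Real.log (L + 2) + ‖wv h1.half h2.half X z‖ ^ 2 + 1 := by positivity
      calc CV * (L * Real.log (L + 2) + ‖wv h1.half h2.half X z‖ ^ 2 + 1)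
          ≤ |CV| * (L * Real.log (L + 2) + ‖wv h1.half h2.half X z‖ ^ 2 + 1) :=
            mul_le_mul_of_nonneg_right (le_abs_self CV) h6
        _ ≤ |CV| * (L * Real.log (L + 2) + (1 + ‖X‖ ^ 2) * (1 + ‖z‖ ^ 2)) := by
            refine mul_le_mul_of_nonneg_left ?_ (abs_nonneg CV)
            nlinarith [sq_nonneg ‖X‖, sq_nonneg ‖z‖]
        _ ≤ |CV| * (L * Real.log (L + 2)) + C0 * (1 + ‖z‖ ^ 2) := by
            rw [mul_add, hC0]
            have h7 : 0 ≤ (Da + Db) * (1 + ‖z‖ ^ 2) := by positivity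
            nlinarith)
    S U hS hSU
    (by
      refine le_trans ?_ hLU
      refine mul_le_mul_of_nonneg_right ?_ hLl
      have h8 : 0 ≤ C * 3 ^ (e * G) + 2 * e * G + 1 := by positivity
      linarith)
    hcardI
    (by
      rw [hcard, ← pow_mul]
      have h4 : (((2 * L : ℕ) : ℝ) + 1) ^ (e * (G - r)) ≤ 3 ^ (e * G) * (L : ℝ) ^ (e * (G - r)) := by
        calc (((2 * L : ℕ) : ℝ) + 1) ^ (e * (G - r)) ≤ (3 * (L : ℝ)) ^ (e * (G - r)) := by
              refine pow_le_pow_left₀ (by positivity) ?_ _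
              push_cast
              linarith
          _ = 3 ^ (e * (G - r)) * (L : ℝ) ^ (e * (G - r)) := mul_pow _ _ _
          _ ≤ _ := by
              refine mul_le_mul_of_nonneg_right ?_ (by positivity)
              exact pow_le_pow_right₀ (by norm_num) (Nat.mul_le_mul_left _ (Nat.sub_le _ _))
      have h5 : (L : ℝ) ^ (e * (2 * G)) ≤ ((L : ℝ) + 1) ^ (2 * G * e) := by
        rw [mul_comm e]
        exact pow_le_pow_left₀ (by positivity) (by linarith) _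
      have hUp : 0 ≤ U ^ (e * r + 1) := by positivity
      calc C * (((2 * L : ℕ) : ℝ) + 1) ^ (e * (G - r)) * U ^ (e * r + 1)
          ≤ C * (3 ^ (e * G) * (L : ℝ) ^ (e * (G - r))) * U ^ (e * r + 1) :=
            mul_le_mul_of_nonneg_right (mul_le_mul_of_nonneg_left h4 hC.le) hUp
        _ = (C * 3 ^ (e * G)) * ((L : ℝ) ^ (e * (G - r)) * U ^ (e * r + 1)) := by ring
        _ ≤ (C * 3 ^ (e * G) + |CV| + 2 * e * G + 1) *
              ((L : ℝ) ^ (e * (G - r)) * U ^ (e * r + 1)) := by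
            refine mul_le_mul_of_nonneg_right ?_ (by positivity)
            have h8 : 0 ≤ |CV| + 2 * e * G + 1 := by positivity
            linarith
        _ = (C * 3 ^ (e * G) + |CV| + 2 * e * G + 1) * (L : ℝ) ^ (e * (G - r)) *
              U ^ (e * r + 1) := by ring
        _ ≤ (L : ℝ) ^ (e * (2 * G)) * S := hbig
        _ ≤ ((L : ℝ) + 1) ^ (2 * G * e) * S :=
            mul_le_mul_of_nonneg_right h5 (by linarith))
  exact ⟨c, hc0, hc1, hc2⟩

end

end Pool.Agent.Helper53.LE
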