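import Pool.Agent.Helper53.LE.Df

/-!
PROJECT ALLQ, LT2 side: elements of a number field as integer polynomials in one algebraic number.
-/

set_option autoImplicit false

namespace Pool.Agent.Helper53.LE

open Finset NumberField

private theorem prim (F : Type) [Field F] [NumberField F] :
    ∃ α : F, α ≠ 0 ∧ IsIntegral ℤ α ∧ ∀ x : F, ∃ p : Polynomial ℚ, Polynomial.aeval α p = x := by
  classical
  obtain ⟨a, ha⟩ := Field.exists_primitive_element ℚ F
  have haa : IsAlgebraic ℚ a := Algebra.IsAlgebraic.isAlgebraic a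
  have h1 : ∀ x : F, ∃ p : Polynomial ℚ, Polynomial.aeval a p = x := by
    intro x
    have h2 : x ∈ (IntermediateField.adjoin ℚ {a}).toSubalgebra := by
      rw [ha]
      exact IntermediateField.mem_top
    rw [IntermediateField.adjoin_simple_toSubalgebra_of_isAlgebraic haa,
      Algebra.adjoin_singleton_eq_range_aeval] at h2
    exact h2
  have haZ : IsAlgebraic ℤ a := (IsFractionRing.isAlgebraic_iff ℤ ℚ F).2 haa
  obtain ⟨y, hy0, hyi⟩ := IsAlgebraic.exists_integral_multiple haZ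
  by_cases hz : y • a = 0
  · have ha0 : a = 0 := by
      rw [zsmul_eq_mul] at hz
      exact (mul_eq_zero.1 hz).resolve_left (by exact_mod_cast hy0)
    refine ⟨1, one_ne_zero, isIntegral_one, fun x => ?_⟩
    obtain ⟨p, hp⟩ := h1 x
    refine ⟨Polynomial.C (p.eval 0), ?_⟩
    rw [← hp, ha0, Polynomial.aeval_C]
    have h3 : Polynomial.aeval (0 : F) p = algebraMap ℚ F (p.eval 0) := by
      rw [← map_zero (algebraMap ℚ F), Polynomial.aeval_algebraMap_apply]
      rfl
    rw [h3]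
  · refine ⟨y • a, hz, hyi, fun x => ?_⟩
    obtain ⟨p, hp⟩ := h1 x
    refine ⟨p.comp (Polynomial.C ((y : ℚ)⁻¹) * Polynomial.X), ?_⟩
    rw [Polynomial.aeval_comp, map_mul, Polynomial.aeval_C, Polynomial.aeval_X, ← hp]
    congr 1
    have hy : ((y : ℤ) : F) ≠ 0 := by exact_mod_cast hy0
    rw [zsmul_eq_mul, map_inv₀, map_intCast, inv_mul_cancel_left₀ hy]

/-- an element integral over `ℤ`, all of whose conjugates are bounded by `B`, is an integer polynomial in
`α` (of bounded degree, with coefficients `≤ C B`) divided by `N` -/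
theorem repr_poly (F : Type) [Field F] [NumberField F] :
    ∃ (α : F) (N d : ℕ) (C : ℝ), α ≠ 0 ∧ IsIntegral ℤ α ∧ 1 ≤ N ∧ 1 ≤ C ∧
      ∀ x : F, IsIntegral ℤ x → ∀ B : ℝ, (∀ φ : F →+* ℂ, ‖φ x‖ ≤ B) →
        ∃ A : Polynomial ℤ, A.natDegree ≤ d ∧ (∀ i, |((A.coeff i : ℤ) : ℝ)| ≤ C * B) ∧
          Polynomial.aeval α A = (N : F) * x := by
  classical
  obtain ⟨α, hα0, hα, hpol⟩ := prim F
  obtain ⟨c, hc⟩ : ∃ c : ℝ, ∀ (a : 𝓞 F) (i : F →+* ℂ),
      ‖(((integralBasis F).reindex (equivReindex F).symm).repr a i : ℂ)‖ ≤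
        c * house (algebraMap (𝓞 F) F a) :=
    ⟨_, fun a i => NumberField.house.basis_repr_norm_le_const_mul_house F a i⟩
  obtain ⟨bs, hbs⟩ : ∃ bs : Module.Basis (Module.Free.ChooseBasisIndex ℤ (𝓞 F)) ℤ (𝓞 F),
      bs = RingOfIntegers.basis F := ⟨_, rfl⟩
  have hcoord : ∀ (a : 𝓞 F) (j : Module.Free.ChooseBasisIndex ℤ (𝓞 F)),
      |((bs.repr a j : ℤ) : ℝ)| ≤ c * house (algebraMap (𝓞 F) F a) := by
    intro a j
    have h1 := hc a ((equivReindex F).symm j)
    rw [Module.Basis.repr_reindex_apply, Equiv.symm_symm, Equiv.apply_symm_apply,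
      integralBasis_repr_apply] at h1
    rw [hbs]
    have h2 : ‖(((algebraMap ℤ ℚ) ((RingOfIntegers.basis F).repr a j) : ℚ) : ℂ)‖ =
        |(((RingOfIntegers.basis F).repr a j : ℤ) : ℝ)| := by
      rw [eq_intCast, Rat.cast_intCast, Complex.norm_intCast]
    rw [← h2]
    exact h1
  -- the basis elements as polynomials in `α`
  have hden : ∀ j : Module.Free.ChooseBasisIndex ℤ (𝓞 F), ∃ (n : ℤ) (P : Polynomial ℤ), n ≠ 0 ∧
      Polynomial.aeval α P = (n : F) * algebraMap (𝓞 F) F (bs j) := by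
    intro j
    obtain ⟨p, hp⟩ := hpol (algebraMap (𝓞 F) F (bs j))
    obtain ⟨b, hb⟩ := IsLocalization.integerNormalization_map_to_map (nonZeroDivisors ℤ) p
    refine ⟨b, IsLocalization.integerNormalization (nonZeroDivisors ℤ) p,
      nonZeroDivisors.ne_zero b.2, ?_⟩
    rw [← Polynomial.aeval_map_algebraMap ℚ, hb, ← hp, map_zsmul, zsmul_eq_mul]
  choose n P hn0 hP using hden
  obtain ⟨N, hN⟩ : ∃ N : ℕ, N = ∏ j, (n j).natAbs := ⟨_, rfl⟩
  have hN0 : N ≠ 0 := by
    rw [hN]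
    exact Finset.prod_ne_zero_iff.2 fun j _ => Int.natAbs_ne_zero.2 (hn0 j)
  have hdvd : ∀ j, ∃ e : ℤ, (N : ℤ) = n j * e := by
    intro j
    have h1 : (n j).natAbs ∣ N := by
      rw [hN]
      exact Finset.dvd_prod_of_mem _ (Finset.mem_univ j)
    have h2 : n j ∣ (N : ℤ) := by
      rw [← Int.natAbs_dvd]
      exact_mod_cast h1
    exact h2
  choose e he using hdvd
  have hR : ∀ j, Polynomial.aeval α (Polynomial.C (e j) * P j) =
      (N : F) * algebraMap (𝓞 F) F (bs j) := by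
    intro j
    rw [map_mul, Polynomial.aeval_C, hP]
    have h1 : (N : F) = ((N : ℤ) : F) := by norm_cast
    rw [h1, he j]
    simp only [algebraMap_int_eq, eq_intCast]
    push_cast
    ring
  obtain ⟨R, hRdef⟩ : ∃ R : Module.Free.ChooseBasisIndex ℤ (𝓞 F) → Polynomial ℤ,
      R = fun j => Polynomial.C (e j) * P j := ⟨_, rfl⟩
  obtain ⟨d, hd⟩ : ∃ d : ℕ, ∀ j, (R j).natDegree ≤ d :=
    ⟨∑ j, (R j).natDegree, fun j => Finset.single_le_sum (f := fun j => (R j).natDegree)
      (fun _ _ => Nat.zero_le _) (Finset.mem_univ j)⟩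
  obtain ⟨M, hM0, hM⟩ : ∃ M : ℝ, 0 ≤ M ∧ ∀ j i, |(((R j).coeff i : ℤ) : ℝ)| ≤ M := by
    refine ⟨∑ j, ∑ i ∈ range (d + 1), |(((R j).coeff i : ℤ) : ℝ)|, by positivity, fun j i => ?_⟩
    have hnn : 0 ≤ ∑ j, ∑ i ∈ range (d + 1), |(((R j).coeff i : ℤ) : ℝ)| := by positivity
    by_cases hi : i < d + 1
    · have h1 : |(((R j).coeff i : ℤ) : ℝ)| ≤ ∑ i ∈ range (d + 1), |(((R j).coeff i : ℤ) : ℝ)| :=
        Finset.single_le_sum (f := fun i => |(((R j).coeff i : ℤ) : ℝ)|)
          (fun _ _ => abs_nonneg _) (Finset.mem_range.2 hi)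
      have h2 : ∑ i ∈ range (d + 1), |(((R j).coeff i : ℤ) : ℝ)| ≤
          ∑ j, ∑ i ∈ range (d + 1), |(((R j).coeff i : ℤ) : ℝ)| :=
        Finset.single_le_sum (f := fun j => ∑ i ∈ range (d + 1), |(((R j).coeff i : ℤ) : ℝ)|)
          (fun _ _ => Finset.sum_nonneg fun _ _ => abs_nonneg _) (Finset.mem_univ j)
      exact h1.trans h2
    · have h1 : (R j).coeff i = 0 := Polynomial.coeff_eq_zero_of_natDegree_lt (by
        have := hd j
        omega)
      rw [h1]
      simpa using hnn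
  have hc0 : 0 ≤ |c| := abs_nonneg c
  refine ⟨α, N, d, 1 + Fintype.card (Module.Free.ChooseBasisIndex ℤ (𝓞 F)) * (|c| * M), hα0, hα,
    Nat.one_le_iff_ne_zero.2 hN0, by
      have : 0 ≤ (Fintype.card (Module.Free.ChooseBasisIndex ℤ (𝓞 F)) : ℝ) * (|c| * M) := by
        positivity
      linarith, fun x hx B hB => ?_⟩
  obtain ⟨a, ha⟩ : ∃ a : 𝓞 F, algebraMap (𝓞 F) F a = x := ⟨⟨x, hx⟩, rfl⟩
  have hB0 : 0 ≤ B := by
    obtain ⟨φ⟩ : Nonempty (F →+* ℂ) := inferInstance
    exact (norm_nonneg _).trans (hB φ)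
  have hhouse : house x ≤ B := by
    rw [house, pi_norm_le_iff_of_nonneg hB0]
    intro φ
    exact hB φ
  have hrepr : x = ∑ j, ((bs.repr a j : ℤ) : F) * algebraMap (𝓞 F) F (bs j) := by
    rw [← ha]
    conv_lhs => rw [← bs.sum_repr a]
    rw [map_sum]
    refine Finset.sum_congr rfl fun j _ => ?_
    rw [zsmul_eq_mul, map_mul, map_intCast]
  refine ⟨∑ j, Polynomial.C (bs.repr a j) * R j, ?_, fun i => ?_, ?_⟩
  · refine Polynomial.natDegree_sum_le_of_forall_le _ _ fun j _ => ?_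
    exact (Polynomial.natDegree_C_mul_le _ _).trans (hd j)
  · rw [Polynomial.finsetSum_coeff]
    push_cast
    refine (Finset.abs_sum_le_sum_abs _ _).trans ?_
    have h1 : ∀ j ∈ (Finset.univ : Finset (Module.Free.ChooseBasisIndex ℤ (𝓞 F))),
        |(((Polynomial.C (bs.repr a j) * R j).coeff i : ℤ) : ℝ)| ≤ |c| * B * M := by
      intro j _
      rw [Polynomial.coeff_C_mul]
      push_cast
      rw [abs_mul]
      refine mul_le_mul ?_ (hM j i) (abs_nonneg _) (by positivity)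
      refine (hcoord a j).trans ?_
      rw [ha]
      calc c * house x ≤ |c| * house x :=
            mul_le_mul_of_nonneg_right (le_abs_self c) (house_nonneg x)
        _ ≤ |c| * B := mul_le_mul_of_nonneg_left hhouse hc0
    refine (Finset.sum_le_sum h1).trans ?_
    rw [Finset.sum_const, Finset.card_univ, nsmul_eq_mul]
    nlinarith
  · rw [map_sum, hrepr, Finset.mul_sum]
    refine Finset.sum_congr rfl fun j _ => ?_
    have h1 := hR j
    rw [hRdef]
    simp only
    rw [map_mul, h1, Polynomial.aeval_C]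
    simp only [algebraMap_int_eq, eq_intCast]
    ring

end Pool.Agent.Helper53.LE
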