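import Pool.Agent.Helper53.LE.Df

/-!
PROJECT ALLQ, LT2 side over a number field: targets. DO NOT IMPORT; restate word for word.
-/

set_option autoImplicit false

namespace Pool.Agent.Helper53.LE.Stub

open Finset Pool.Agent.Helper34.LT LTG Pool.Agent.Helper34.LU Pool.Agent.Helper53.LE
open Pool.Agent.Helper13.LT (PS)

/-- products; no reduction of the degree in `α` -/
theorem RTA_mul {ι : Type} [Fintype ι] (α : ℂ) (d d' : ℕ) (B B' : ℝ) (D k l : ℕ) (hB : 1 ≤ B)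
    (hB' : 1 ≤ B') (hD : 1 ≤ D) (f g : (ι → ℂ) → ℂ) (hf : RTA α d B D k f)
    (hg : RTA α d' B' D l g) (hkl : 1 ≤ k + l) :
    RTA α (d + d') (2 * (d + 1) * B * B') D (k + l) (fun z => f z * g z) := by
  sorry

/-- other denominators and bounds -/
theorem RTA_mono {ι : Type} [Fintype ι] (α : ℂ) (d d' : ℕ) (B B' : ℝ) (D E k : ℕ) (hB : 1 ≤ B)
    (hE : 1 ≤ E) (hd : d ≤ d') (hBB : E * B ≤ B') (f : (ι → ℂ) → ℂ) (hf : RTA α d B D k f) :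
    RTA α d' B' (D * E) k f := by
  sorry

/-- `k` may be lowered to `1` -/
theorem RTx_of {ι : Type} [Fintype ι] (α : ℂ) (d : ℕ) (B : ℝ) (D k : ℕ) (hB : 1 ≤ B) (hD : 1 ≤ D)
    (f : (ι → ℂ) → ℂ) (hf : RTA α d B D k f) : RTx α f := by
  sorry

theorem RTx_mul {ι : Type} [Fintype ι] (α : ℂ) (f g : (ι → ℂ) → ℂ) (hf : RTx α f)
    (hg : RTx α g) : RTx α (fun z => f z * g z) := by
  sorry

theorem RTx_pow {ι : Type} [Fintype ι] (α : ℂ) (f : (ι → ℂ) → ℂ) (hf : RTx α f) (N : ℕ) :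
    RTx α (fun z => f z ^ N) := by
  sorry

/-- two functions, one `α` -/
theorem RTE_RTA {ι κ : Type} [Fintype ι] [Fintype κ] (E E' : IntermediateField ℚ ℂ)
    [FiniteDimensional ℚ E] [FiniteDimensional ℚ E'] (a : (ι → ℕ) → ℂ) (b : (κ → ℕ) → ℂ)
    (ha : RTE E a) (hb : RTE E' b) (f : (ι → ℂ) → ℂ) (g : (κ → ℂ) → ℂ) (hf : PS a f)
    (hg : PS b g) :
    ∃ α : ℂ, α ≠ 0 ∧ IsIntegral ℤ α ∧ RTx α f ∧ RTx α g := by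
  sorry

/-- the theta structure (`f = τ ^ 3`) -/
theorem TH_E (α : ℂ) (q : ℕ) (s : Finset ℕ) (hs : HS q s) (ρ : ℕ → ℂ) (hρ : ∀ u ∈ s, ρ u ≠ 0)
    (κ : s → ℂ) (hκ : ∀ u, κ u ≠ 0) (c : Polynomial ℤ → ℂ) (τ : (s → ℂ) → ℂ)
    (hd : Differentiable ℂ τ) (h0 : τ 0 ≠ 0) (hq : QPS q s ρ κ c τ)
    (hrt : RTx α τ) :
    IsThA α q s ρ (fun u => 3 * κ u) (fun P => 3 * c P) (fun z => τ z ^ 3) := by
  sorry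

/-- powers -/
theorem th_pow (α : ℂ) (q : ℕ) (s : Finset ℕ) (ρ : ℕ → ℂ) (κ : s → ℂ) (c : Polynomial ℤ → ℂ)
    (f : (s → ℂ) → ℂ) (h : IsThA α q s ρ κ c f) (N : ℕ) (hN : 1 ≤ N) :
    IsThA α q s ρ (fun u => (N : ℂ) * κ u) (fun P => (N : ℂ) * c P) (fun z => f z ^ N) := by
  sorry

/-- the criterion with the algebraic number `α` -/
theorem C_main_E {σ : Type} [Fintype σ] (n : ℕ) (ρ : σ → ℂ) (h0 : ∀ i, ρ i ≠ 0)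
    (htr : ∀ f : Fin (n + 1) → σ, ¬ AlgebraicIndependent ℚ (fun i => ρ (f i)))
    (α : ℂ) (hα : IsIntegral ℤ α) (hα0 : α ≠ 0)
    (κ : ℝ) (hκ : (n : ℝ) + 1 < κ) :
    ∃ S0 : ℝ, ∀ S : ℝ, S0 ≤ S → ∀ (N : ℕ) (P : Fin N → MvPolynomial (Option σ) ℤ),
      (N : ℝ) ≤ Real.exp S → (∀ i, ((P i).totalDegree : ℝ) ≤ S) →
      (∀ i m, |(((P i).coeff m : ℤ) : ℝ)| ≤ Real.exp S) →
      (∀ i, ‖MvPolynomial.aeval (pα α ρ) (P i)‖ ≤ Real.exp (-S ^ κ)) →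
      ∃ x : σ → ℂ, (∀ i, x i ≠ 0) ∧ ∀ i, MvPolynomial.aeval (pα α x) (P i) = 0 := by
  sorry

variable (q : ℕ) (s t : Finset ℕ) (ρ1 ρ2 : ℕ → ℂ) (κ1 : s → ℂ) (κ2 : t → ℂ)
  (c1 c2 : Polynomial ℤ → ℂ) (f : (s → ℂ) → ℂ) (g : (t → ℂ) → ℂ)

/-- as `A_main`, the polynomials have the additional variable `α` -/
theorem A_main_E (α : ℂ) (h1 : IsThA α q s ρ1 κ1 c1 f) (h2 : IsThA α q t ρ2 κ2 c2 g) (e : ℕ)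
    (_he : 1 ≤ e) :
    ∃ C : ℝ, 1 ≤ C ∧ ∀ L T : ℕ, 1 ≤ L → L ≤ T → ∀ c : (Fin e → JJ s t L) → ℤ, c ≠ 0 →
      (∀ k, |(c k : ℝ)| ≤ Real.exp (T * Real.log (T + 2))) →
      ∃ (N : ℕ) (P : Fin N → MvPolynomial (Option (II s t)) ℤ),
        (N : ℝ) ≤ Real.exp (C * T) ∧ (∀ m, ((P m).totalDegree : ℝ) ≤ C * T) ∧
        (∀ m k, |(((P m).coeff k : ℤ) : ℝ)| ≤ Real.exp (C * T * Real.log (T + 2))) ∧
        (∀ (X : II s t → ℂ) (U : ℝ),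
          (∀ x : Fin e → UU q → ℂ, (∀ i, ‖x i‖ ≤ 1) →
            ‖∑ k, (c k : ℂ) * ∏ i, Vx f g (k i) (wv h1.half h2.half X (x i))‖ ≤
              Real.exp (-U)) →
          ∀ m, ‖MvPolynomial.aeval (pα α X) (P m)‖ ≤
            Real.exp (C * T * Real.log (T + 2) - U)) ∧
        (∀ X : II s t → ℂ, (∀ m, MvPolynomial.aeval (pα α X) (P m) = 0) →
          ∃ b : JJ s t L → ℂ, b ≠ 0 ∧ ∀ x : UU q → ℂ, ∀ j ≤ T,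
            iteratedDeriv j
              (fun z : ℂ => ∑ k, b k * Vx f g k (wv h1.half h2.half X (z • x))) 0 = 0) := by
  sorry

theorem B_main_E (h1 : IsTh0 q s ρ1 κ1 c1 f) (h2 : IsTh0 q t ρ2 κ2 c2 g)
    (hk1 : ∀ u (hu : u ∈ s) (hv : u ∈ t), κ1 ⟨u, hu⟩ * ρ1 u + κ2 ⟨u, hv⟩ * ρ2 u ≠ 0)
    (hk2 : ∀ u (hu : u ∈ s) (hv : q - u ∈ t),
      κ1 ⟨u, hu⟩ * ρ1 u - κ2 ⟨q - u, hv⟩ * ρ2 (q - u) ≠ 0)
    (e : ℕ) (he : 1 ≤ e) :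
    ∃ C : ℝ, 0 < C ∧ ∀ L : ℕ, 1 ≤ L → ∀ S U : ℝ, 1 ≤ S → S ≤ U →
      C * (L * Real.log (L + 2)) ≤ U →
      C * (L : ℝ) ^ (e * (q.totient / 2 - (s \ t).card)) * U ^ (e * (s \ t).card + 1) ≤
        (L : ℝ) ^ (e * (2 * (q.totient / 2))) * S →
      ∃ c : (Fin e → JJ s t L) → ℤ, c ≠ 0 ∧ (∀ k, |(c k : ℝ)| ≤ Real.exp S) ∧
        ∀ x : Fin e → UU q → ℂ, (∀ i, ‖x i‖ ≤ 1) →
          ‖∑ k, (c k : ℂ) *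
            ∏ i, Vx f g (k i) (wv h1.half h2.half (tru ρ1 ρ2 κ1 κ2) (x i))‖ ≤ Real.exp (-U) := by
  sorry

theorem Z_app_E (h1 : IsTh0 q s ρ1 κ1 c1 f) (h2 : IsTh0 q t ρ2 κ2 c2 g) (hst : s ≠ t) :
    ∃ C : ℕ, ∀ X : II s t → ℂ, (∀ i, X i ≠ 0) → ∀ L : ℕ, 1 ≤ L →
      ∀ b : JJ s t L → ℂ, b ≠ 0 → ∀ T : ℕ,
      (∀ x : UU q → ℂ, ∀ j ≤ 2 * q * T,
        iteratedDeriv j (fun z : ℂ => ∑ k, b k * Vx f g k (wv h1.half h2.half X (z • x))) 0 = 0) →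
      T ≤ C * L := by
  sorry

variable {q s t ρ1 ρ2 κ1 κ2 c1 c2 f g}

theorem pair_main_E (α : ℂ) (hα : IsIntegral ℤ α) (hα0 : α ≠ 0)
    (h1 : IsThA α q s ρ1 κ1 c1 f) (h2 : IsThA α q t ρ2 κ2 c2 g) (hst : s ≠ t)
    (hk1 : ∀ u (hu : u ∈ s) (hv : u ∈ t), κ1 ⟨u, hu⟩ * ρ1 u + κ2 ⟨u, hv⟩ * ρ2 u ≠ 0)
    (hk2 : ∀ u (hu : u ∈ s) (hv : q - u ∈ t),
      κ1 ⟨u, hu⟩ * ρ1 u - κ2 ⟨q - u, hv⟩ * ρ2 (q - u) ≠ 0)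
    (σ : UU q → ℂ) (hσ0 : ∀ w, σ w ≠ 0) (hσ1 : ∀ w, ‖σ w‖ ≤ 1)
    (n : ℕ) (hn : n * (s \ t).card < q.totient / 2) :
    ∃ k : Fin (n + 1) → II s t, AlgebraicIndependent ℚ
      (fun i => tru ρ1 ρ2 κ1 κ2 (k i) * σ (pj h1.half h2.half (k i))) := by
  sorry

/-- **Summary of the LT2 side**: what the family theorem has to deliver for two types `s ≠ t` of
distance `1`, and what comes out. -/
theorem pair_E {s t : Finset ℕ} (hs : HS q s) (ht : HS q t) (hst : s ≠ t)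
    (ρ1 ρ2 : ℕ → ℂ) (hρ1 : ∀ u ∈ s, ρ1 u ≠ 0) (hρ2 : ∀ u ∈ t, ρ2 u ≠ 0)
    (κ1 : s → ℂ) (κ2 : t → ℂ) (hκ1 : ∀ u, κ1 u ≠ 0) (hκ2 : ∀ u, κ2 u ≠ 0)
    (c1 c2 : Polynomial ℤ → ℂ) (τ1 : (s → ℂ) → ℂ) (τ2 : (t → ℂ) → ℂ)
    (hd1 : Differentiable ℂ τ1) (hd2 : Differentiable ℂ τ2)
    (h01 : τ1 0 = 1) (h02 : τ2 0 = 1) (hq1 : QPS q s ρ1 κ1 c1 τ1) (hq2 : QPS q t ρ2 κ2 c2 τ2)
    (E E' : IntermediateField ℚ ℂ) [FiniteDimensional ℚ E] [FiniteDimensional ℚ E']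
    (a : (s → ℕ) → ℂ) (b : (t → ℕ) → ℂ) (hE : RTE E a) (hE' : RTE E' b)
    (ha : PS a τ1) (hb : PS b τ2)
    (σ : UU q → ℂ) (hσ0 : ∀ w, σ w ≠ 0) (hσ1 : ∀ w, ‖σ w‖ ≤ 1)
    (n : ℕ) (hn : n * (s \ t).card < q.totient / 2) :
    ∃ (N : ℕ) (k : Fin (n + 1) → II s t), 1 ≤ N ∧ AlgebraicIndependent ℚ
      (fun i => tru ρ1 ρ2 (fun u => 3 * κ1 u) (fun v => (N : ℂ) * (3 * κ2 v)) (k i) *
        σ (pj hs ht (k i))) := by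
  sorry

end Pool.Agent.Helper53.LE.Stub
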