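import Pool.Agent.Helper53.LE.Df
import Pool.Agent.Helper93.LX.Vf
import Pool.Agent.Helper93.LX.Vd
import Pool.Agent.Helper93.LX.Ve

/-!
PROJECT ALLQ (MP_274814_nt), LT2 side: block V (captain of the original: helper93) for functions with
an everywhere convergent power series, without arithmetic.
-/

namespace Pool.Agent.Helper53.LE

open Pool.Agent.Helper34.LU (cof vx cof_of_PS cof_bound cof_smul)
open Pool.Agent.Helper13.LT (PS)
open Pool.Agent.Helper93.LX (vt vx_eq prod_indep)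

noncomputable section

variable {ι : Type} [Fintype ι]

theorem vt_PS (f : (ι → ℂ) → ℂ) (h : ∃ c : (ι → ℕ) → ℂ, PS c f) (x : ι ⊕ ι → ℂ) :
    ∃ c : (ι → ℕ) → ℂ, PS c (vt f x) := by
  obtain ⟨φ, hφ⟩ := h
  exact ⟨_, (Pool.Agent.Helper96.LU.ps_shift hφ (fun u => x (Sum.inl u))).mul
    (Pool.Agent.Helper96.LU.ps_exp (fun u => x (Sum.inr u)))⟩

theorem vx_diff (f : (ι → ℂ) → ℂ) (h : ∃ c : (ι → ℕ) → ℂ, PS c f) (k : ι → ℕ) :
    Differentiable ℂ (vx f k) := by
  obtain ⟨φ, hφ⟩ := h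
  have h1 : vx f k = fun x : ι ⊕ ι → ℂ => ∑ p ∈ Pool.Agent.Helper13.LT.adg k,
      (∏ u, (((p.1 u + p.2 u).choose (p.2 u) : ℕ) : ℂ)) *
      (∏ u, (-x (Sum.inr u)) ^ p.2 u) *
      ((∏ u, ((p.1 u).factorial : ℂ)) * Pool.Agent.Helper96.LU.gb φ p.1 (fun u => x (Sum.inl u))) := by
    funext x
    rw [Pool.Agent.Helper96.LU.vx_eq hφ]
  rw [h1]
  refine Differentiable.fun_sum fun p _ => ?_
  refine Differentiable.mul ?_ ?_
  · refine (differentiable_const _).mul ?_
    have h3 : ∀ t : Finset ι, Differentiable ℂ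
        (fun x : ι ⊕ ι → ℂ => ∏ u ∈ t, (-x (Sum.inr u)) ^ p.2 u) := by
      classical
      intro t
      induction t using Finset.induction_on with
      | empty => simp
      | insert a t ha ih =>
        simp only [Finset.prod_insert ha]
        exact (((differentiable_apply _).neg).pow _).mul ih
    exact h3 _
  · refine (differentiable_const _).mul ?_
    have h2 : Differentiable ℂ (Pool.Agent.Helper96.LU.gb φ p.1) :=
      Pool.Agent.Helper13.LT.PS.diff (Pool.Agent.Helper96.LU.ps_gb hφ p.1)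
    refine h2.comp ?_
    rw [differentiable_pi]
    intro u
    exact differentiable_apply _

/-- Proof. For `x' = x + Sum.elim γ a` and every `t`: `vt f x' t = exp (∑ a_u x_l u + c) * vt f x t`,
because `f(x_l + t + γ) = exp (∑ a_u (x_l u + t_u) + c) f(x_l + t)` and
`exp (-∑ t_u (x_r u + a_u)) = exp (-∑ t_u x_r u) exp (-∑ t_u a_u)`. So `cof` is
multiplied by the constant: `vt_PS`, `cof_smul`. -/
theorem vx_qp (f : (ι → ℂ) → ℂ) (h : ∃ c : (ι → ℕ) → ℂ, PS c f) (γ a : ι → ℂ) (c : ℂ)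
    (hγ : ∀ z, f (z + γ) = Complex.exp (∑ u, a u * z u + c) * f z)
    (k : ι → ℕ) (x : ι ⊕ ι → ℂ) :
    vx f k (x + Sum.elim γ a) = Complex.exp (∑ u, a u * x (Sum.inl u) + c) * vx f k x := by
  have h1 : vt f (x + Sum.elim γ a) =
      fun t => Complex.exp (∑ u, a u * x (Sum.inl u) + c) * vt f x t := by
    funext t
    unfold vt
    have h2 : (fun u => (x + Sum.elim γ a) (Sum.inl u) + t u) =
        (fun u => x (Sum.inl u) + t u) + γ := by
      funext u
      simp only [Pi.add_apply, Sum.elim_inl]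
      ring
    have h3 : Complex.exp (∑ u, a u * (x (Sum.inl u) + t u) + c) *
        Complex.exp (-∑ u, t u * (x + Sum.elim γ a) (Sum.inr u)) =
        Complex.exp (∑ u, a u * x (Sum.inl u) + c) *
          Complex.exp (-∑ u, t u * x (Sum.inr u)) := by
      rw [← Complex.exp_add, ← Complex.exp_add]
      congr 1
      simp only [Pi.add_apply, Sum.elim_inr, mul_add, Finset.sum_add_distrib]
      have h4 : ∑ u, a u * t u = ∑ u, t u * a u := Finset.sum_congr rfl fun u _ => mul_comm _ _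
      rw [h4]
      ring
    rw [h2, hγ, mul_right_comm, h3]
    ring
  rw [vx_eq, vx_eq, h1, cof_smul (vt_PS f h x)]
  ring

private theorem Vb_sum (t y : ι → ℂ) (b : ℝ) (h : ∀ u, ‖t u * y u‖ ≤ b) :
    ‖∑ u, t u * y u‖ ≤ Fintype.card ι * b := by
  refine (norm_sum_le _ _).trans ?_
  refine (Finset.sum_le_sum fun u _ => h u).trans ?_
  rw [Finset.sum_const, nsmul_eq_mul, Finset.card_univ]

/-- Proof. `cof_bound` with `R = 1`: for `‖t‖ ≤ 1`, `‖f (x_l + t)‖ ≤ exp (|C| (1 + (‖x‖ + 1)^2))` and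
`‖exp (-∑ t_u x_r u)‖ ≤ exp (card ι * ‖x‖)`; `(1 + ‖x‖)^2 ≤ 2 + 2 ‖x‖^2`, `‖x‖ ≤ 1 + ‖x‖^2`;
`C' = 3 |C| + card ι`. -/
theorem vx_growth (C : ℝ) : ∃ C' : ℝ, 0 ≤ C' ∧ ∀ (f : (ι → ℂ) → ℂ), (∃ c : (ι → ℕ) → ℂ, PS c f) →
    (∀ z, ‖f z‖ ≤ Real.exp (C * (1 + ‖z‖ ^ 2))) → ∀ (k : ι → ℕ) (x : ι ⊕ ι → ℂ),
      ‖vx f k x‖ ≤ (∏ u, ((k u).factorial : ℝ)) * Real.exp (C' * (1 + ‖x‖ ^ 2)) := by
  refine ⟨3 * |C| + Fintype.card ι, by positivity, fun f h hf k x => ?_⟩
  have hc : ‖cof (vt f x) k‖ ≤ Real.exp ((3 * |C| + Fintype.card ι) * (1 + ‖x‖ ^ 2)) := by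
    have h1 := cof_bound (vt_PS f h x) zero_le_one
      (B := Real.exp ((3 * |C| + Fintype.card ι) * (1 + ‖x‖ ^ 2))) (fun t ht => ?_) k
    · rwa [one_pow, mul_one] at h1
    · unfold vt
      rw [norm_mul]
      have h2 : ‖(fun u => x (Sum.inl u) + t u)‖ ≤ ‖x‖ + 1 := by
        rw [pi_norm_le_iff_of_nonneg (by positivity)]
        intro u
        exact (norm_add_le _ _).trans (add_le_add (norm_le_pi_norm x _)
          ((norm_le_pi_norm t u).trans ht))
      have h3 := hf (fun u => x (Sum.inl u) + t u)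
      have h4 : ‖Complex.exp (-∑ u, t u * x (Sum.inr u))‖ ≤ Real.exp (Fintype.card ι * ‖x‖) := by
        rw [Complex.norm_exp]
        refine Real.exp_le_exp.2 ((Complex.re_le_norm _).trans ?_)
        rw [norm_neg]
        exact Vb_sum t (fun u => x (Sum.inr u)) _ fun u => by
          rw [norm_mul]
          have h5 : ‖t u‖ * ‖x (Sum.inr u)‖ ≤ 1 * ‖x‖ :=
            mul_le_mul ((norm_le_pi_norm t u).trans ht) (norm_le_pi_norm x _) (norm_nonneg _)
              zero_le_one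
          rwa [one_mul] at h5
      refine (mul_le_mul h3 h4 (norm_nonneg _) (Real.exp_pos _).le).trans ?_
      rw [← Real.exp_add]
      refine Real.exp_le_exp.2 ?_
      have h6 : ‖(fun u => x (Sum.inl u) + t u)‖ ^ 2 ≤ (‖x‖ + 1) ^ 2 :=
        pow_le_pow_left₀ (norm_nonneg _) h2 2
      have h7 : C * (1 + ‖(fun u => x (Sum.inl u) + t u)‖ ^ 2) ≤ |C| * (3 * (1 + ‖x‖ ^ 2)) := by
        refine (mul_le_mul_of_nonneg_right (le_abs_self C) (by positivity)).trans ?_
        refine mul_le_mul_of_nonneg_left ?_ (abs_nonneg C)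
        nlinarith [sq_nonneg (‖x‖ - 1), sq_nonneg ‖x‖]
      have h8 : (Fintype.card ι : ℝ) * ‖x‖ ≤ Fintype.card ι * (1 + ‖x‖ ^ 2) := by
        refine mul_le_mul_of_nonneg_left ?_ (Nat.cast_nonneg _)
        nlinarith [sq_nonneg (‖x‖ - 1), norm_nonneg x]
      nlinarith
  rw [vx_eq, norm_mul]
  have h9 : ‖(∏ u, ((k u).factorial : ℂ))‖ = ∏ u, ((k u).factorial : ℝ) := by
    rw [norm_prod]
    exact Finset.prod_congr rfl fun u _ => by rw [Complex.norm_natCast]
  rw [h9]
  exact mul_le_mul_of_nonneg_left hc (Finset.prod_nonneg fun u _ => Nat.cast_nonneg _)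

/-- Polynomial growth in one vertical variable `x (inr v) = y`, the others bounded.
Proof. `ρ = 1 / (1 + ‖y‖) ≤ 1`. Let `c` be the expansion of `vt f x'` (`x' = Function.update x (inr v) y`); by `PS.scale`
with `y_v = ρ`, `y_u = 1` (`u ≠ v`), the function `t ↦ vt f x' (t with t_v replaced by ρ t_v)` has the expansion
`c m ρ^(m v)`, and `cof_bound`/`PS.bound` with `R = 1` gives `‖cof‖ ρ^(k v) ≤ sup_{‖t‖ ≤ 1} ‖f (x_l + t')‖ *
exp (∑_{u ≠ v} ‖x_r u‖ + ρ ‖y‖) ≤ M exp (card ι * R + 1)` (`M` = bound of the continuous function `f` on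
`‖z‖ ≤ R + 1`). -/
theorem vx_poly_growth [DecidableEq ι] (f : (ι → ℂ) → ℂ) (h : ∃ c : (ι → ℕ) → ℂ, PS c f)
    (k : ι → ℕ) (v : ι) (R : ℝ) :
    ∃ B : ℝ, 0 ≤ B ∧ ∀ (x : ι ⊕ ι → ℂ) (y : ℂ), ‖x‖ ≤ R →
      ‖vx f k (Function.update x (Sum.inr v) y)‖ ≤ B * (1 + ‖y‖) ^ (k v) := by
  have h0 := h
  obtain ⟨cf, hcf⟩ := h
  have hf : Continuous f := (PS.diff hcf).continuous
  obtain ⟨M, hM⟩ := (isCompact_closedBall (0 : ι → ℂ) (|R| + 1)).exists_bound_of_continuousOn
    hf.continuousOn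
  have hM0 : 0 ≤ M := (norm_nonneg _).trans (hM 0 (by
    rw [Metric.mem_closedBall, dist_self]
    positivity))
  refine ⟨(∏ u, ((k u).factorial : ℝ)) * (M * Real.exp (Fintype.card ι * |R| + 1)),
    by positivity, fun x y hx => ?_⟩
  set x' := Function.update x (Sum.inr v) y with hx'
  obtain ⟨c, hc⟩ := vt_PS f h0 x'
  set ρ : ℝ := (1 + ‖y‖)⁻¹ with hρ
  have hy0 : 0 < 1 + ‖y‖ := by positivity
  have hρ0 : 0 < ρ := inv_pos.2 hy0
  have hρ1 : ρ ≤ 1 := inv_le_one_of_one_le₀ (by linarith [norm_nonneg y])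
  have hρy : ρ * ‖y‖ ≤ 1 := by
    rw [hρ, inv_mul_le_iff₀ hy0]
    linarith
  set s : ι → ℂ := Function.update (fun _ => (1 : ℂ)) v (ρ : ℂ) with hs
  have hsv : s v = (ρ : ℂ) := Function.update_self _ _ _
  have hsu : ∀ u, u ≠ v → s u = 1 := fun u hu => Function.update_of_ne hu _ _
  have hs1 : ∀ u, ‖s u‖ ≤ 1 := fun u => by
    by_cases hu : u = v
    · rw [hu, hsv, Complex.norm_real, Real.norm_of_nonneg hρ0.le]
      exact hρ1
    · rw [hsu u hu, norm_one]
  have hb := PS.bound (PS.scale hc s) zero_le_one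
    (B := M * Real.exp (Fintype.card ι * |R| + 1)) (fun t ht => ?_) k
  · rw [one_pow, mul_one, norm_mul] at hb
    have hp : ‖∏ u, s u ^ k u‖ = ρ ^ k v := by
      rw [Finset.prod_eq_single v (fun u _ hu => by rw [hsu u hu, one_pow])
        (fun hv => absurd (Finset.mem_univ v) hv), hsv, norm_pow, Complex.norm_real,
        Real.norm_of_nonneg hρ0.le]
    rw [hp] at hb
    have hck : ‖c k‖ ≤ M * Real.exp (Fintype.card ι * |R| + 1) * (1 + ‖y‖) ^ k v := by
      have h1 : ρ ^ k v * (1 + ‖y‖) ^ k v = 1 := by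
        rw [← mul_pow, hρ, inv_mul_cancel₀ hy0.ne', one_pow]
      calc ‖c k‖ = ‖c k‖ * ρ ^ k v * (1 + ‖y‖) ^ k v := by rw [mul_assoc, h1, mul_one]
        _ ≤ _ := mul_le_mul_of_nonneg_right hb (by positivity)
    rw [vx_eq, cof_of_PS hc, norm_mul]
    have h9 : ‖(∏ u, ((k u).factorial : ℂ))‖ = ∏ u, ((k u).factorial : ℝ) := by
      rw [norm_prod]
      exact Finset.prod_congr rfl fun u _ => by rw [Complex.norm_natCast]
    rw [h9, mul_assoc]
    exact mul_le_mul_of_nonneg_left hck (Finset.prod_nonneg fun u _ => Nat.cast_nonneg _)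
  · unfold vt
    rw [norm_mul]
    have ht' : ∀ u, ‖s u * t u‖ ≤ 1 := fun u => by
      rw [norm_mul]
      exact mul_le_one₀ (hs1 u) (norm_nonneg _) ((norm_le_pi_norm t u).trans ht)
    have hxR : ∀ i, ‖x i‖ ≤ |R| := fun i => (norm_le_pi_norm x i).trans (hx.trans (le_abs_self R))
    refine mul_le_mul (hM _ ?_) ?_ (norm_nonneg _) hM0
    · rw [mem_closedBall_zero_iff, pi_norm_le_iff_of_nonneg (by positivity)]
      intro u
      rw [hx', Function.update_of_ne (by simp)]
      exact (norm_add_le _ _).trans (add_le_add (hxR _) (ht' u))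
    · rw [Complex.norm_exp]
      refine Real.exp_le_exp.2 ((Complex.re_le_norm _).trans ?_)
      rw [norm_neg]
      refine (norm_sum_le _ _).trans ?_
      have h5 : ∀ u ∈ (Finset.univ : Finset ι), ‖s u * t u * x' (Sum.inr u)‖
          ≤ |R| + (if u = v then 1 else 0) := fun u _ => by
        by_cases hu : u = v
        · rw [if_pos hu, hu, hsv, hx', Function.update_self, norm_mul, norm_mul,
            Complex.norm_real, Real.norm_of_nonneg hρ0.le]
          have h6 : ρ * ‖t v‖ * ‖y‖ ≤ 1 := by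
            have h7 : ‖t v‖ ≤ 1 := (norm_le_pi_norm t v).trans ht
            calc ρ * ‖t v‖ * ‖y‖ = (ρ * ‖y‖) * ‖t v‖ := by ring
              _ ≤ 1 * 1 := mul_le_mul hρy h7 (norm_nonneg _) zero_le_one
              _ = 1 := one_mul 1
          linarith [abs_nonneg R]
        · rw [if_neg hu, add_zero, norm_mul, hx',
            Function.update_of_ne (fun h => hu (Sum.inr_injective h))]
          calc ‖s u * t u‖ * ‖x (Sum.inr u)‖ ≤ 1 * |R| :=
                mul_le_mul (ht' u) (hxR _) (norm_nonneg _) zero_le_one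
            _ = |R| := one_mul _
      refine (Finset.sum_le_sum h5).trans ?_
      rw [Finset.sum_add_distrib, Finset.sum_const, nsmul_eq_mul, Finset.card_univ,
        Finset.sum_ite_eq' Finset.univ v, if_pos (Finset.mem_univ v)]



open Filter Topology in
/-- expansion of `exp (∑ z_u)` -/
private theorem Vc_exp :
    PS (ι := ι) (fun m => ∏ u, ((m u).factorial : ℂ)⁻¹) (fun z => Complex.exp (∑ u, z u)) := by
  classical
  intro z
  have hterm : (fun m : ι → ℕ => (∏ u, ((m u).factorial : ℂ)⁻¹) * ∏ u, z u ^ m u) =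
      fun m : ι → ℕ => ∏ u, (z u ^ m u / ((m u).factorial : ℂ)) := by
    funext m
    rw [← Finset.prod_mul_distrib]
    refine Finset.prod_congr rfl fun u _ => ?_
    rw [div_eq_mul_inv, mul_comm]
  rw [hterm]
  have hs : Summable fun m : ι → ℕ => ∏ u, (z u ^ m u / ((m u).factorial : ℂ)) := by
    refine Summable.of_norm ?_
    refine summable_of_sum_le (c := ∏ u, Real.exp ‖z u‖) (fun m => norm_nonneg _) ?_
    intro s
    set N : ℕ := (s.sup fun m => Finset.univ.sup m) + 1 with hN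
    have hs : s ⊆ Fintype.piFinset (fun _ : ι => Finset.range N) := by
      intro m hm
      rw [Fintype.mem_piFinset]
      intro u
      rw [Finset.mem_range, hN, Nat.lt_succ_iff]
      have h2 : m u ≤ Finset.univ.sup m := Finset.le_sup (f := m) (Finset.mem_univ u)
      have h3 : Finset.univ.sup m ≤ s.sup fun m => Finset.univ.sup m :=
        Finset.le_sup (f := fun m : ι → ℕ => Finset.univ.sup m) hm
      exact h2.trans h3
    calc ∑ m ∈ s, ‖∏ u, (z u ^ m u / ((m u).factorial : ℂ))‖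
        ≤ ∑ m ∈ Fintype.piFinset (fun _ : ι => Finset.range N),
            ‖∏ u, (z u ^ m u / ((m u).factorial : ℂ))‖ :=
          Finset.sum_le_sum_of_subset_of_nonneg hs (fun m _ _ => norm_nonneg _)
      _ = ∑ m ∈ Fintype.piFinset (fun _ : ι => Finset.range N),
            ∏ u, (‖z u‖ ^ m u / ((m u).factorial : ℝ)) := by
          refine Finset.sum_congr rfl fun m _ => ?_
          rw [norm_prod]
          refine Finset.prod_congr rfl fun u _ => ?_
          rw [norm_div, norm_pow, Complex.norm_natCast]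
      _ = ∏ u : ι, ∑ n ∈ Finset.range N, ‖z u‖ ^ n / (n.factorial : ℝ) := by
          rw [Finset.prod_univ_sum]
      _ ≤ ∏ u : ι, Real.exp ‖z u‖ := by
          refine Finset.prod_le_prod (fun u _ => Finset.sum_nonneg fun n _ => by positivity)
            fun u _ => ?_
          exact Real.sum_le_exp_of_nonneg (norm_nonneg _) N
  have ht : Tendsto (fun N : ℕ => Fintype.piFinset (fun _ : ι => Finset.range N)) atTop atTop := by
    refine tendsto_atTop_finset_of_monotone ?_ ?_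
    · intro a b hab
      exact Fintype.piFinset_subset _ _ fun _ => Finset.range_mono hab
    · intro m
      refine ⟨Finset.univ.sup m + 1, ?_⟩
      rw [Fintype.mem_piFinset]
      intro u
      rw [Finset.mem_range, Nat.lt_succ_iff]
      exact Finset.le_sup (f := m) (Finset.mem_univ u)
  have h1 : Tendsto (fun N : ℕ => ∑ m ∈ Fintype.piFinset (fun _ : ι => Finset.range N),
      ∏ u, (z u ^ m u / ((m u).factorial : ℂ))) atTop
      (𝓝 (∑' m : ι → ℕ, ∏ u, (z u ^ m u / ((m u).factorial : ℂ)))) := by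
    have h0 : Tendsto (fun s : Finset (ι → ℕ) =>
        ∑ m ∈ s, ∏ u, (z u ^ m u / ((m u).factorial : ℂ))) atTop
        (𝓝 (∑' m : ι → ℕ, ∏ u, (z u ^ m u / ((m u).factorial : ℂ)))) := by
      simpa only [HasSum, SummationFilter.unconditional_filter] using hs.hasSum
    exact h0.comp ht
  have h2 : Tendsto (fun N : ℕ => ∑ m ∈ Fintype.piFinset (fun _ : ι => Finset.range N),
      ∏ u, (z u ^ m u / ((m u).factorial : ℂ))) atTop (𝓝 (∏ u, Complex.exp (z u))) := by
    have h3 : (fun N : ℕ => ∑ m ∈ Fintype.piFinset (fun _ : ι => Finset.range N),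
        ∏ u, (z u ^ m u / ((m u).factorial : ℂ))) =
        fun N : ℕ => ∏ u : ι, ∑ n ∈ Finset.range N, z u ^ n / (n.factorial : ℂ) := by
      funext N
      rw [Finset.prod_univ_sum]
    rw [h3]
    refine tendsto_finset_prod _ fun u _ => ?_
    have h4 : HasSum (fun n : ℕ => z u ^ n / (n.factorial : ℂ)) (Complex.exp (z u)) := by
      rw [Complex.exp_eq_exp_ℂ]
      exact NormedSpace.expSeries_div_hasSum_exp (z u)
    exact h4.tendsto_sum_nat
  have h5 := tendsto_nhds_unique h1 h2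
  have h6 := hs.hasSum
  rw [h5, ← Complex.exp_sum] at h6
  exact h6

/-- expansion of `exp (-∑ t_u w_u)` -/
private theorem Vc_expw (w : ι → ℂ) :
    PS (fun m => (∏ u, ((m u).factorial : ℂ)⁻¹) * ∏ u, (-w u) ^ m u)
      (fun t => Complex.exp (-∑ u, t u * w u)) := by
  have h1 := Pool.Agent.Helper13.LT.PS.scale (Vc_exp (ι := ι)) (fun u => -w u)
  have h2 : (fun t : ι → ℂ => Complex.exp (∑ u, -w u * t u)) =
      fun t : ι → ℂ => Complex.exp (-∑ u, t u * w u) := by
    funext t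
    congr 1
    rw [← Finset.sum_neg_distrib]
    refine Finset.sum_congr rfl fun u _ => ?_
    ring
  rw [← h2]
  exact h1

/-- constant coefficient -/
private theorem Vc_zero {c : (ι → ℕ) → ℂ} {f : (ι → ℂ) → ℂ} (h : PS c f) : c 0 = f 0 := by
  have h1 := h 0
  have h2 : HasSum (fun m : ι → ℕ => c m * ∏ u, (0 : ι → ℂ) u ^ m u)
      (c 0 * ∏ u, (0 : ι → ℂ) u ^ (0 : ι → ℕ) u) := by
    refine hasSum_single 0 fun m hm => ?_
    obtain ⟨u, hu⟩ := Function.ne_iff.1 hm
    rw [Finset.prod_eq_zero (Finset.mem_univ u), mul_zero]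
    rw [Pi.zero_apply, zero_pow hu]
  have h3 := h2.unique h1
  simpa using h3

/-- Proof. `x = Sum.elim z w`, `vt f x t = f(z + t) exp (-∑ t_u w_u)`; `f(z + ·)` has an expansion `a`
(`vt_PS` at `(z, 0)`; `a 0 = f z`, the value at `t = 0`), `exp (-∑ t_u w_u)` has the expansion
`(-1)^|j| w^j / j!` (slices of `RT_expb` with `D = 1`, or one variable at a time), so by `PS.mul` (`cv`,
`adg`) `vx f k (z, w) = k! ∑_{i + j = k} a_i (-1)^|j| w^j / j!`: the polynomial
`P = ∑_{(i,j) ∈ adg k} C (k! a_i (-1)^|j| / j!) * monomial j 1`; its coefficient at `k` comes from `i = 0`, `j = k`. -/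
theorem vx_poly (f : (ι → ℂ) → ℂ) (h : ∃ c : (ι → ℕ) → ℂ, PS c f) (k : ι → ℕ) (z : ι → ℂ) :
    ∃ P : MvPolynomial ι ℂ, P.totalDegree ≤ ∑ u, k u ∧
      (∀ m : ι →₀ ℕ, P.coeff m ≠ 0 → ∀ u, m u ≤ k u) ∧
      P.coeff (Finsupp.equivFunOnFinite.symm k) = (-1) ^ (∑ u, k u) * f z ∧
      ∀ w : ι → ℂ, vx f k (Sum.elim z w) = MvPolynomial.eval w P := by
  classical
  obtain ⟨a, ha⟩ := vt_PS f h (Sum.elim z 0)
  have hf : vt f (Sum.elim z 0) = fun t : ι → ℂ => f (fun u => z u + t u) := by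
    funext t
    simp [vt]
  rw [hf] at ha
  have ha0 : a 0 = f z := by
    rw [Vc_zero ha]
    congr 1
    funext u
    simp
  set Q : (ι → ℕ) × (ι → ℕ) → ℂ := fun p => (∏ u, ((k u).factorial : ℂ)) *
    (a p.1 * ((∏ u, ((p.2 u).factorial : ℂ)⁻¹) * (-1) ^ (∑ u, p.2 u))) with hQ
  set P : MvPolynomial ι ℂ := ∑ p ∈ Pool.Agent.Helper13.LT.adg k,
    MvPolynomial.monomial (Finsupp.equivFunOnFinite.symm p.2) (Q p) with hP
  have hco : ∀ m : ι →₀ ℕ, P.coeff m ≠ 0 → ∀ u, m u ≤ k u := by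
    intro m hm
    rw [hP, MvPolynomial.coeff_sum] at hm
    obtain ⟨p, hp, hp0⟩ := Finset.exists_ne_zero_of_sum_ne_zero hm
    rw [MvPolynomial.coeff_monomial] at hp0
    split_ifs at hp0 with h1
    · intro u
      rw [← h1, ← Pool.Agent.Helper13.LT.mem_adg.1 hp]
      simp
    · exact absurd rfl hp0
  refine ⟨P, ?_, hco, ?_, ?_⟩
  · rw [MvPolynomial.totalDegree]
    refine Finset.sup_le fun m hm => ?_
    rw [Finsupp.sum_fintype _ _ (fun _ => rfl)]
    exact Finset.sum_le_sum fun u _ => hco m (MvPolynomial.mem_support_iff.1 hm) u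
  · rw [hP, MvPolynomial.coeff_sum, Finset.sum_eq_single ((0, k) : (ι → ℕ) × (ι → ℕ))]
    · rw [MvPolynomial.coeff_monomial, if_pos rfl, hQ]
      simp only
      rw [ha0, Finset.prod_inv_distrib]
      have h1 : (∏ u, ((k u).factorial : ℂ)) ≠ 0 :=
        Finset.prod_ne_zero_iff.2 fun u _ => Nat.cast_ne_zero.2 (Nat.factorial_ne_zero _)
      field_simp
    · intro p hp hne
      rw [MvPolynomial.coeff_monomial, if_neg]
      intro h1
      apply hne
      have h2 : p.2 = k := by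
        have := congrArg Finsupp.equivFunOnFinite h1
        simpa using this
      have h3 := Pool.Agent.Helper13.LT.mem_adg.1 hp
      refine Prod.ext ?_ h2
      rw [h2] at h3
      simpa using h3
    · intro h1
      exact absurd (Pool.Agent.Helper13.LT.mem_adg.2 (by simp)) h1
  · intro w
    have h1 : PS (Pool.Agent.Helper13.LT.cv a
        (fun m => (∏ u, ((m u).factorial : ℂ)⁻¹) * ∏ u, (-w u) ^ m u)) (vt f (Sum.elim z w)) := by
      have h2 := Pool.Agent.Helper13.LT.PS.mul ha (Vc_expw w)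
      have h3 : vt f (Sum.elim z w) = fun t : ι → ℂ => f (fun u => z u + t u) *
          Complex.exp (-∑ u, t u * w u) := by
        funext t
        simp [vt]
      rw [h3]
      exact h2
    rw [vx_eq, cof_of_PS h1, hP, map_sum, Pool.Agent.Helper13.LT.cv, Finset.mul_sum]
    refine Finset.sum_congr rfl fun p _ => ?_
    rw [MvPolynomial.eval_monomial, hQ, Finsupp.prod_fintype _ _ (fun _ => pow_zero _)]
    have h4 : ∏ u, (-w u) ^ p.2 u = (-1) ^ (∑ u, p.2 u) * ∏ u, w u ^ p.2 u := by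
      rw [← Finset.prod_pow_eq_pow_sum, ← Finset.prod_mul_distrib]
      refine Finset.prod_congr rfl fun u _ => ?_
      rw [← mul_pow, neg_one_mul]
    rw [h4]
    simp only [Finsupp.equivFunOnFinite_symm_apply_apply]
    ring

/-- Proof. Let `∑_k p_k vx f k = 0`, not all `p_k = 0`, `k` with `p_k ≠ 0` and `|k|` maximal, `z` with `f z ≠ 0`.
The polynomial `∑ p_k' P_k'` of `vx_poly` at `z` vanishes at all `w`, so it is `0` (`MvPolynomial.funext`);
coefficient at `k`: `p_k (±f z)` plus the contributions of `k' ≠ k` with `P_k'.coeff k ≠ 0`, for these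
`k ≤ k'`, `k ≠ k'`, so `|k'| > |k|` and `p_k' = 0`. -/
theorem vx_indep (f : (ι → ℂ) → ℂ) (h : ∃ c : (ι → ℕ) → ℂ, PS c f) (h0 : ∃ z, f z ≠ 0) (L : ℕ) :
    LinearIndependent ℂ (fun k : ι → Fin (L + 1) => vx f (fun u => (k u : ℕ))) := by
  classical
  obtain ⟨z, hz⟩ := h0
  rw [Fintype.linearIndependent_iff]
  intro g hg
  by_contra hcon
  push Not at hcon
  obtain ⟨k0, hk0⟩ := hcon
  obtain ⟨k, hk, hmax⟩ := Finset.exists_max_image
    (Finset.univ.filter fun k : ι → Fin (L + 1) => g k ≠ 0) (fun k => ∑ u, (k u : ℕ))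
    ⟨k0, by simp [hk0]⟩
  rw [Finset.mem_filter] at hk
  choose P hPd hPc hPk hPe using fun k : ι → Fin (L + 1) =>
    vx_poly f h (fun u => (k u : ℕ)) z
  have h1 : ∑ k', MvPolynomial.C (g k') * P k' = 0 := by
    refine MvPolynomial.funext fun w => ?_
    rw [map_sum, map_zero]
    have h2 := congrFun hg (Sum.elim z w)
    rw [Finset.sum_apply, Pi.zero_apply] at h2
    rw [← h2]
    refine Finset.sum_congr rfl fun k' _ => ?_
    rw [map_mul, MvPolynomial.eval_C, Pi.smul_apply, smul_eq_mul, hPe]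
  have h3 := congrArg (MvPolynomial.coeff (Finsupp.equivFunOnFinite.symm fun u => (k u : ℕ))) h1
  rw [MvPolynomial.coeff_sum, MvPolynomial.coeff_zero, Finset.sum_eq_single k] at h3
  · rw [MvPolynomial.coeff_C_mul, hPk] at h3
    have h4 : ((-1 : ℂ)) ^ (∑ u, (k u : ℕ)) ≠ 0 := pow_ne_zero _ (by norm_num)
    exact mul_ne_zero hk.2 (mul_ne_zero h4 hz) h3
  · intro k' _ hne
    rw [MvPolynomial.coeff_C_mul]
    by_contra h4
    have h5 : g k' ≠ 0 := left_ne_zero_of_mul h4
    have h6 := hPc k' _ (right_ne_zero_of_mul h4)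
    simp only [Finsupp.equivFunOnFinite_symm_apply_apply] at h6
    have h7 := hmax k' (by simp [h5])
    obtain ⟨u, hu⟩ := Function.ne_iff.1 hne
    have h8 : ∑ u, (k u : ℕ) < ∑ u, (k' u : ℕ) := by
      refine Finset.sum_lt_sum (fun u _ => h6 u) ⟨u, Finset.mem_univ u, ?_⟩
      refine lt_of_le_of_ne (h6 u) fun h9 => hu ?_
      exact Fin.ext h9.symm
    omega
  · intro h4
    exact absurd (Finset.mem_univ k) h4


end

end Pool.Agent.Helper53.LE
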