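import Pool.Agent.Helper53.LE.Vb

/-!
PROJECT ALLQ, LT2 side: block V for the product of two types, without arithmetic (copy of
Helper93/LX/Vd, Ve, Vf with `IsTh0`).
-/

set_option autoImplicit false

namespace Pool.Agent.Helper53.LE

open Finset Pool.Agent.Helper34.LT LTG Pool.Agent.Helper34.LU
open Pool.Agent.Helper44.LT (PU)
open Pool.Agent.Helper63.LU (Theta2)
open Pool.Agent.Helper13.LT (PS)
open Pool.Agent.Helper93.LX (prod_indep V_per_conj)

noncomputable section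

/-- one factor: the shift by `lamS q s ρ P` in the abelian and `κ u * conj (P(ζ^u))` in the vertical
variables -/
theorem V_per_one (q : ℕ) (s : Finset ℕ) (ρ : ℕ → ℂ) (κ : s → ℂ) (c : Polynomial ℤ → ℂ)
    (f : (s → ℂ) → ℂ) (h : IsTh0 q s ρ κ c f) (k : s → ℕ) (P : Polynomial ℤ) (x : s ⊕ s → ℂ) :
    vx f k (x + Sum.elim (lamS q s ρ P) (fun u => κ u * (starRingEnd ℂ) (pt q s P u))) =
      Complex.exp (∑ u : s, κ u * (starRingEnd ℂ) (pt q s P u) * x (Sum.inl u) + c P) *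
        vx f k x := by
  exact vx_qp f h.ps (lamS q s ρ P) (fun u => κ u * (starRingEnd ℂ) (pt q s P u)) (c P)
    (fun z => h.qp P z) k x


variable (q : ℕ) (s t : Finset ℕ) (ρ1 ρ2 : ℕ → ℂ) (κ1 : s → ℂ) (κ2 : t → ℂ)
  (c1 c2 : Polynomial ℤ → ℂ) (f : (s → ℂ) → ℂ) (g : (t → ℂ) → ℂ)


private theorem V_growth_fac {ι : Type} [Fintype ι] (L : ℕ) (j : ι → Fin (L + 1)) :
    (∏ u, ((j u : ℕ).factorial : ℝ)) ≤
      Real.exp (Fintype.card ι * (L * Real.log (L + 2))) := by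
  have h1 : ∀ u ∈ (Finset.univ : Finset ι), (((j u : ℕ).factorial : ℕ) : ℝ) ≤
      Real.exp (L * Real.log (L + 2)) := by
    intro u _
    have h2 : (j u : ℕ) ≤ L := Nat.lt_succ_iff.1 (j u).2
    have h3 : (((j u : ℕ).factorial : ℕ) : ℝ) ≤ (L : ℝ) ^ L := by
      exact_mod_cast (Nat.factorial_le h2).trans (Nat.factorial_le_pow L)
    refine h3.trans ?_
    have h4 : (L : ℝ) ^ L ≤ ((L : ℝ) + 2) ^ L :=
      pow_le_pow_left₀ (Nat.cast_nonneg L) (by linarith) L
    refine h4.trans (le_of_eq ?_)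
    have h5 : (0 : ℝ) < (L : ℝ) + 2 := by positivity
    rw [← Real.exp_log (pow_pos h5 L), Real.log_pow]
  refine (Finset.prod_le_prod (fun u _ => Nat.cast_nonneg _) h1).trans (le_of_eq ?_)
  rw [Finset.prod_const, Finset.card_univ, ← Real.exp_nat_mul]

/-- Proof. `vx_growth` for `f` and `g` (constants `C1', C2'`), the arguments have norm `≤ ‖x‖`;
`∏ (j.1 u)! ≤ (L!)^(card s) ≤ L^(card s * L) = exp (card s * L log L)` (`Nat.factorial_le_pow`), `log L ≤ log (L + 2)`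
(for `L = 0` the product is `1`). `C = C1' + C2' + card s + card t`. -/
theorem V_growth (h1 : IsTh0 q s ρ1 κ1 c1 f) (h2 : IsTh0 q t ρ2 κ2 c2 g) :
    ∃ C : ℝ, ∀ (L : ℕ) (j : JJ s t L) (x : II s t → ℂ),
      ‖Vx f g j x‖ ≤ Real.exp (C * (L * Real.log (L + 2) + ‖x‖ ^ 2 + 1)) := by
  obtain ⟨C1, hC1⟩ := h1.growth
  obtain ⟨C2, hC2⟩ := h2.growth
  obtain ⟨B1, hB1, hv1⟩ := vx_growth (ι := s) C1
  obtain ⟨B2, hB2, hv2⟩ := vx_growth (ι := t) C2
  refine ⟨B1 + B2 + s.card + t.card, fun L j x => ?_⟩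
  have e1 := hv1 f h1.ps hC1 (fun u => (j.1 u : ℕ))
    (Sum.elim (fun u => x (Sum.inl (Sum.inl u))) (fun u => x (Sum.inr (Sum.inl u))))
  have e2 := hv2 g h2.ps hC2 (fun v => (j.2 v : ℕ))
    (Sum.elim (fun v => x (Sum.inl (Sum.inr v))) (fun v => x (Sum.inr (Sum.inr v))))
  have n1 : ‖(Sum.elim (fun u => x (Sum.inl (Sum.inl u))) (fun u => x (Sum.inr (Sum.inl u))) :
      s ⊕ s → ℂ)‖ ≤ ‖x‖ := by
    refine (pi_norm_le_iff_of_nonneg (norm_nonneg x)).2 fun i => ?_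
    rcases i with u | u
    · exact norm_le_pi_norm x (Sum.inl (Sum.inl u))
    · exact norm_le_pi_norm x (Sum.inr (Sum.inl u))
  have n2 : ‖(Sum.elim (fun v => x (Sum.inl (Sum.inr v))) (fun v => x (Sum.inr (Sum.inr v))) :
      t ⊕ t → ℂ)‖ ≤ ‖x‖ := by
    refine (pi_norm_le_iff_of_nonneg (norm_nonneg x)).2 fun i => ?_
    rcases i with u | u
    · exact norm_le_pi_norm x (Sum.inl (Sum.inr u))
    · exact norm_le_pi_norm x (Sum.inr (Sum.inr u))
  have f1 := V_growth_fac (ι := s) L (fun u => j.1 u)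
  have f2 := V_growth_fac (ι := t) L (fun u => j.2 u)
  rw [Fintype.card_coe] at f1 f2
  have hx := norm_nonneg x
  have g1 : Real.exp (B1 * (1 + ‖(Sum.elim (fun u => x (Sum.inl (Sum.inl u)))
      (fun u => x (Sum.inr (Sum.inl u))) : s ⊕ s → ℂ)‖ ^ 2)) ≤
      Real.exp (B1 * (1 + ‖x‖ ^ 2)) := by
    refine Real.exp_le_exp.2 (mul_le_mul_of_nonneg_left ?_ hB1)
    have := pow_le_pow_left₀ (norm_nonneg _) n1 2
    linarith
  have g2 : Real.exp (B2 * (1 + ‖(Sum.elim (fun v => x (Sum.inl (Sum.inr v)))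
      (fun v => x (Sum.inr (Sum.inr v))) : t ⊕ t → ℂ)‖ ^ 2)) ≤
      Real.exp (B2 * (1 + ‖x‖ ^ 2)) := by
    refine Real.exp_le_exp.2 (mul_le_mul_of_nonneg_left ?_ hB2)
    have := pow_le_pow_left₀ (norm_nonneg _) n2 2
    linarith
  have hlog : 0 ≤ (L : ℝ) * Real.log (L + 2) :=
    mul_nonneg (Nat.cast_nonneg L) (Real.log_nonneg (by
      have : (0 : ℝ) ≤ L := Nat.cast_nonneg L
      linarith))
  unfold Vx
  rw [norm_mul]
  have k1 := e1.trans (mul_le_mul f1 g1 (Real.exp_pos _).le (Real.exp_pos _).le)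
  have k2 := e2.trans (mul_le_mul f2 g2 (Real.exp_pos _).le (Real.exp_pos _).le)
  refine (mul_le_mul k1 k2 (norm_nonneg _) (mul_pos (Real.exp_pos _) (Real.exp_pos _)).le).trans ?_
  rw [← Real.exp_add, ← Real.exp_add, ← Real.exp_add]
  refine Real.exp_le_exp.2 ?_
  have c1' : (0 : ℝ) ≤ s.card := Nat.cast_nonneg _
  have c2' : (0 : ℝ) ≤ t.card := Nat.cast_nonneg _
  have hx2 : 0 ≤ ‖x‖ ^ 2 := sq_nonneg _
  have m1 := mul_nonneg hB1 hlog
  have m2 := mul_nonneg hB2 hlog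
  have m3 := mul_nonneg c1' hx2
  have m4 := mul_nonneg c2' hx2
  nlinarith

private theorem V_poly_one {q : ℕ} {s : Finset ℕ} (hs : HS q s) 
    (f : (s → ℂ) → ℂ) (h : ∃ c : (s → ℕ) → ℂ, PS c f) (L : ℕ) (j : s → Fin (L + 1)) (Xa Xb : s → ℂ)
    (w : UU q) (hw : (w : ℕ) ∉ s) (R : ℝ) :
    ∃ B : ℝ, 0 ≤ B ∧ ∀ (x : UU q → ℂ) (z : ℂ), ‖x‖ ≤ R →
      ‖vx f (fun u => (j u : ℕ))
        (Sum.elim (fun u => Xa u * (Function.update x w z) ⟨u, HS_mem hs u⟩)
          (fun u => Xb u * (Function.update x w z) ⟨q - u, HS_mem' hs u⟩))‖ ≤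
        B * (1 + ‖z‖) ^ L := by
  have hw' := mem_UU.1 w.2
  have hwq : (w : ℕ) < q := by omega
  have hv : q - (w : ℕ) ∈ s := by
    by_contra hn
    exact hw ((hs.half w hw'.1.1 hwq hw'.2).2 hn)
  obtain ⟨v, hvv⟩ : ∃ v : s, v = ⟨q - (w : ℕ), hv⟩ := ⟨_, rfl⟩
  obtain ⟨B, hB, hb⟩ := vx_poly_growth f h (fun u => (j u : ℕ)) v
    ((‖Xa‖ + ‖Xb‖) * R)
  refine ⟨B * (1 + ‖Xb v‖) ^ L, mul_nonneg hB (by positivity), fun x z hx => ?_⟩
  have hR : 0 ≤ R := (norm_nonneg x).trans hx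
  have e1 : (Sum.elim (fun u => Xa u * (Function.update x w z) ⟨u, HS_mem hs u⟩)
      (fun u => Xb u * (Function.update x w z) ⟨q - u, HS_mem' hs u⟩) : s ⊕ s → ℂ) =
      Function.update (Sum.elim (fun u => Xa u * x ⟨u, HS_mem hs u⟩)
        (fun u => Xb u * x ⟨q - u, HS_mem' hs u⟩)) (Sum.inr v) (Xb v * z) := by
    funext i
    rcases i with u | u
    · have h1 : (⟨(u : ℕ), HS_mem hs u⟩ : UU q) ≠ w := by
        intro h2
        have h3 : (u : ℕ) = w := congrArg Subtype.val h2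
        exact hw (h3 ▸ u.2)
      rw [Sum.elim_inl, Function.update_of_ne h1, Function.update_of_ne Sum.inl_ne_inr,
        Sum.elim_inl]
    · by_cases h1 : u = v
      · have h2 : (⟨q - (u : ℕ), HS_mem' hs u⟩ : UU q) = w := by
          apply Subtype.ext
          change q - (u : ℕ) = w
          rw [h1, hvv]
          change q - (q - (w : ℕ)) = w
          omega
        rw [Sum.elim_inr, h2, Function.update_self, h1, Function.update_self]
      · have h2 : (⟨q - (u : ℕ), HS_mem' hs u⟩ : UU q) ≠ w := by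
          intro h3
          have h4 : q - (u : ℕ) = w := congrArg Subtype.val h3
          have h5 := (hs.mem u u.2).2.1
          apply h1
          apply Subtype.ext
          rw [hvv]
          change (u : ℕ) = q - (w : ℕ)
          omega
        have h3 : (Sum.inr u : s ⊕ s) ≠ Sum.inr v := fun h4 => h1 (Sum.inr_injective h4)
        rw [Sum.elim_inr, Function.update_of_ne h2, Function.update_of_ne h3, Sum.elim_inr]
  have e2 : ‖(Sum.elim (fun u => Xa u * x ⟨u, HS_mem hs u⟩)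
        (fun u => Xb u * x ⟨q - u, HS_mem' hs u⟩) : s ⊕ s → ℂ)‖ ≤ (‖Xa‖ + ‖Xb‖) * R := by
    refine (pi_norm_le_iff_of_nonneg (mul_nonneg (by positivity) hR)).2 fun i => ?_
    rcases i with u | u
    · rw [Sum.elim_inl, norm_mul]
      refine mul_le_mul ?_ ((norm_le_pi_norm x _).trans hx) (norm_nonneg _) (by positivity)
      exact (norm_le_pi_norm Xa u).trans (le_add_of_nonneg_right (norm_nonneg _))
    · rw [Sum.elim_inr, norm_mul]
      refine mul_le_mul ?_ ((norm_le_pi_norm x _).trans hx) (norm_nonneg _) (by positivity)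
      exact (norm_le_pi_norm Xb u).trans (le_add_of_nonneg_left (norm_nonneg _))
  rw [e1]
  refine (hb _ (Xb v * z) e2).trans ?_
  rw [mul_assoc, ← mul_pow]
  refine mul_le_mul_of_nonneg_left ?_ hB
  have h6 : 1 + ‖Xb v * z‖ ≤ (1 + ‖Xb v‖) * (1 + ‖z‖) := by
    rw [norm_mul]
    nlinarith [norm_nonneg (Xb v), norm_nonneg z]
  have h7 : (1 : ℝ) ≤ (1 + ‖Xb v‖) * (1 + ‖z‖) := by
    nlinarith [norm_nonneg (Xb v), norm_nonneg z, mul_nonneg (norm_nonneg (Xb v)) (norm_nonneg z)]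
  refine (pow_le_pow_left₀ (by positivity) h6 _).trans (pow_le_pow_right₀ h7 ?_)
  exact Nat.lt_succ_iff.1 (j v).2

/-- Proof. `w` is a unit (`mem_UU`), `w ∉ s`, `w ∉ t`, so `q - w ∈ s` and `q - w ∈ t` (`HS`: exactly one of `u`, `q - u`).
In the first factor the argument is `y ↦ (X_u x_u)_u, (X x_(q-u))_u`; replacing `x` by `update x w z` changes only the
vertical coordinate `u = q - w` (`pj (inr (inl u)) = w` iff `u = q - w`; the abelian coordinates `u ∈ s` are `≠ w`): the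
argument is `Function.update x' (inr v) (X * z)`, `v = q - w`, `‖x'‖ ≤ ‖X‖ R`; `vx_poly_growth` gives
`B1 (1 + ‖X‖ ‖z‖)^(j.1 v) ≤ B1 ((1 + ‖X‖) (1 + ‖z‖))^L`. Same for the second factor (index `inr (inr v)`); multiply. -/
theorem V_poly (h1 : IsTh0 q s ρ1 κ1 c1 f) (h2 : IsTh0 q t ρ2 κ2 c2 g) (L : ℕ) (j : JJ s t L)
    (X : II s t → ℂ) (w : UU q) (hs : (w : ℕ) ∉ s) (ht : (w : ℕ) ∉ t) (R : ℝ) :
    ∃ B : ℝ, ∀ (x : UU q → ℂ) (z : ℂ), ‖x‖ ≤ R →
      ‖Vx f g j (wv h1.half h2.half X (Function.update x w z))‖ ≤ B * (1 + ‖z‖) ^ (2 * L) := by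
  obtain ⟨B1, hB1, e1⟩ := V_poly_one h1.half f h1.ps L j.1 (fun u => X (Sum.inl (Sum.inl u)))
    (fun u => X (Sum.inr (Sum.inl u))) w hs R
  obtain ⟨B2, hB2, e2⟩ := V_poly_one h2.half g h2.ps L j.2 (fun u => X (Sum.inl (Sum.inr u)))
    (fun u => X (Sum.inr (Sum.inr u))) w ht R
  refine ⟨B1 * B2, fun x z hx => ?_⟩
  unfold Vx
  rw [norm_mul]
  have k1 := e1 x z hx
  have k2 := e2 x z hx
  have hz : 0 ≤ (1 + ‖z‖) ^ L := by positivity
  refine (mul_le_mul k1 k2 (norm_nonneg _) (mul_nonneg hB1 hz)).trans (le_of_eq ?_)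
  rw [two_mul, pow_add]
  ring

section

variable (q : ℕ) (s t : Finset ℕ) (ρ1 ρ2 : ℕ → ℂ) (κ1 : s → ℂ) (κ2 : t → ℂ)
  (c1 c2 : Polynomial ℤ → ℂ) (f : (s → ℂ) → ℂ) (g : (t → ℂ) → ℂ)

/-- on `V`, true slopes: quasi-periodicity.
Proof. First factor: abelian argument `u ↦ ρ1 u * (x_u + P(ζ^u))` = old + `lamS q s ρ1 P`; vertical argument
`u ↦ κ1 u * (x_(q-u) + P(ζ^(q-u)))` = old + `κ1 u * conj (P(ζ^u))` (`zt q ^ (q - u) = conj (zt q ^ u)`, integer
coefficients: `pt q (UU q) P (q-u) = conj (pt q s P u)`); `QPS` for `f` has the multiplier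
`exp (∑ κ1 u * conj (pt q s P u) * z u + c1 P)`, so `vx_qp` with `γ = lamS q s ρ1 P`,
`a u = κ1 u * conj (pt q s P u)` gives the factor `exp (∑ κ1 u conj(..) ρ1 u x_u + c1 P)`. Same for the second
factor; multiply (`Complex.exp_add`). -/
theorem V_per (h1 : IsTh0 q s ρ1 κ1 c1 f) (h2 : IsTh0 q t ρ2 κ2 c2 g) (L : ℕ) (j : JJ s t L)
    (P : Polynomial ℤ) (x : UU q → ℂ) :
    Vx f g j (wv h1.half h2.half (tru ρ1 ρ2 κ1 κ2) (x + pt q (UU q) P)) =
      Complex.exp (∑ u : s, κ1 u * ρ1 u * (starRingEnd ℂ) (pt q s P u) *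
          x ⟨u, HS_mem h1.half u⟩ +
        ∑ v : t, κ2 v * ρ2 v * (starRingEnd ℂ) (pt q t P v) * x ⟨v, HS_mem h2.half v⟩ +
        (c1 P + c2 P)) *
      Vx f g j (wv h1.half h2.half (tru ρ1 ρ2 κ1 κ2) x) := by
  have hq : q ≠ 0 := by have := h1.half.three; omega
  have e1 : (Sum.elim
      (fun u : s => wv h1.half h2.half (tru ρ1 ρ2 κ1 κ2) (x + pt q (UU q) P) (Sum.inl (Sum.inl u)))
      (fun u : s => wv h1.half h2.half (tru ρ1 ρ2 κ1 κ2) (x + pt q (UU q) P)
        (Sum.inr (Sum.inl u))) : s ⊕ s → ℂ) =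
      Sum.elim
        (fun u : s => wv h1.half h2.half (tru ρ1 ρ2 κ1 κ2) x (Sum.inl (Sum.inl u)))
        (fun u : s => wv h1.half h2.half (tru ρ1 ρ2 κ1 κ2) x (Sum.inr (Sum.inl u))) +
      Sum.elim (lamS q s ρ1 P) (fun u => κ1 u * (starRingEnd ℂ) (pt q s P u)) := by
    funext i
    rcases i with u | u
    · simp only [wv, tru, pj, Sum.elim_inl, Pi.add_apply, pt, lamS]
      ring
    · have hu := (h1.half.mem u u.2).2.1.le
      simp only [wv, tru, pj, Sum.elim_inl, Sum.elim_inr, Pi.add_apply, pt]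
      rw [V_per_conj hq hu]
      ring
  have e2 : (Sum.elim
      (fun u : t => wv h1.half h2.half (tru ρ1 ρ2 κ1 κ2) (x + pt q (UU q) P) (Sum.inl (Sum.inr u)))
      (fun u : t => wv h1.half h2.half (tru ρ1 ρ2 κ1 κ2) (x + pt q (UU q) P)
        (Sum.inr (Sum.inr u))) : t ⊕ t → ℂ) =
      Sum.elim
        (fun u : t => wv h1.half h2.half (tru ρ1 ρ2 κ1 κ2) x (Sum.inl (Sum.inr u)))
        (fun u : t => wv h1.half h2.half (tru ρ1 ρ2 κ1 κ2) x (Sum.inr (Sum.inr u))) +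
      Sum.elim (lamS q t ρ2 P) (fun u => κ2 u * (starRingEnd ℂ) (pt q t P u)) := by
    funext i
    rcases i with u | u
    · simp only [wv, tru, pj, Sum.elim_inl, Sum.elim_inr, Pi.add_apply, pt, lamS]
      ring
    · have hu := (h2.half.mem u u.2).2.1.le
      simp only [wv, tru, pj, Sum.elim_inr, Pi.add_apply, pt]
      rw [V_per_conj hq hu]
      ring
  have s1 : ∑ u : s, κ1 u * (starRingEnd ℂ) (pt q s P u) *
      (Sum.elim
        (fun u : s => wv h1.half h2.half (tru ρ1 ρ2 κ1 κ2) x (Sum.inl (Sum.inl u)))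
        (fun u : s => wv h1.half h2.half (tru ρ1 ρ2 κ1 κ2) x (Sum.inr (Sum.inl u)))
        (Sum.inl u)) =
      ∑ u : s, κ1 u * ρ1 u * (starRingEnd ℂ) (pt q s P u) * x ⟨u, HS_mem h1.half u⟩ := by
    refine Finset.sum_congr rfl fun u _ => ?_
    simp only [wv, tru, pj, Sum.elim_inl]
    ring
  have s2 : ∑ u : t, κ2 u * (starRingEnd ℂ) (pt q t P u) *
      (Sum.elim
        (fun u : t => wv h1.half h2.half (tru ρ1 ρ2 κ1 κ2) x (Sum.inl (Sum.inr u)))
        (fun u : t => wv h1.half h2.half (tru ρ1 ρ2 κ1 κ2) x (Sum.inr (Sum.inr u)))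
        (Sum.inl u)) =
      ∑ u : t, κ2 u * ρ2 u * (starRingEnd ℂ) (pt q t P u) * x ⟨u, HS_mem h2.half u⟩ := by
    refine Finset.sum_congr rfl fun u _ => ?_
    simp only [wv, tru, pj, Sum.elim_inl, Sum.elim_inr]
    ring
  rw [Vx, Vx, e1, e2, V_per_one q s ρ1 κ1 c1 f h1, V_per_one q t ρ2 κ2 c2 g h2, s1, s2]
  rw [show ∀ a b c d : ℂ, a + b + (c + d) = (a + c) + (b + d) from fun a b c d => by ring,
    Complex.exp_add (_ + c1 P)]
  ring

/-- A half system has at most `q / 2` elements. -/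
private theorem two_card_le {q : ℕ} {s : Finset ℕ} (h : HS q s) : 2 * Fintype.card s ≤ q := by
  classical
  have h3 := h.three
  have hd : Disjoint s (s.image fun u => q - u) := by
    rw [Finset.disjoint_left]
    intro u hu hu'
    obtain ⟨v, hv, rfl⟩ := Finset.mem_image.1 hu'
    obtain ⟨a1, a2, a3⟩ := h.mem v hv
    exact (h.half v a1 a2 a3).1 hv hu
  have hc : (s.image fun u => q - u).card = s.card := by
    refine Finset.card_image_of_injOn ?_
    intro u hu v hv huv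
    have b1 := h.mem u hu
    have b2 := h.mem v hv
    simp only at huv
    omega
  have hsub : s ∪ (s.image fun u => q - u) ⊆ Finset.Icc 1 (q - 1) := by
    intro u hu
    rcases Finset.mem_union.1 hu with hu | hu
    · obtain ⟨a1, a2, a3⟩ := h.mem u hu
      exact Finset.mem_Icc.2 ⟨a1, by omega⟩
    · obtain ⟨v, hv, rfl⟩ := Finset.mem_image.1 hu
      obtain ⟨a1, a2, a3⟩ := h.mem v hv
      exact Finset.mem_Icc.2 ⟨by omega, by omega⟩
  have := Finset.card_le_card hsub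
  rw [Finset.card_union_of_disjoint hd, hc, Nat.card_Icc] at this
  rw [Fintype.card_coe]
  omega

/-- Quasi-periodicity of the product functions. -/
private theorem Vx_shift (h1 : IsTh0 q s ρ1 κ1 c1 f) (h2 : IsTh0 q t ρ2 κ2 c2 g) (L : ℕ)
    (j : JJ s t L) (a : Polynomial ℤ × Polynomial ℤ) (z : II s t → ℂ) :
    Vx f g j (z + Sum.elim (gm q s t ρ1 ρ2 a) (sgm ρ1 ρ2 κ1 κ2 (gm q s t ρ1 ρ2 a))) =
      Complex.exp (lm q κ1 κ2 a (fun i => z (Sum.inl i)) + cm c1 c2 a) * Vx f g j z := by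
  have e1 : (Sum.elim
      (fun u : s => (z + Sum.elim (gm q s t ρ1 ρ2 a) (sgm ρ1 ρ2 κ1 κ2 (gm q s t ρ1 ρ2 a)))
        (Sum.inl (Sum.inl u)))
      (fun u : s => (z + Sum.elim (gm q s t ρ1 ρ2 a) (sgm ρ1 ρ2 κ1 κ2 (gm q s t ρ1 ρ2 a)))
        (Sum.inr (Sum.inl u))) : s ⊕ s → ℂ) =
      Sum.elim (fun u => z (Sum.inl (Sum.inl u))) (fun u => z (Sum.inr (Sum.inl u))) +
        Sum.elim (lamS q s ρ1 a.1) (fun u => κ1 u * (starRingEnd ℂ) (pt q s a.1 u)) := by
    funext i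
    rcases i with u | u
    · simp [gm]
    · have hr : ρ1 u ≠ 0 := h1.rho u u.2
      simp [gm, sgm, lamS]
      left
      exact mul_div_cancel_left₀ _ ((map_ne_zero _).2 hr)
  have e2 : (Sum.elim
      (fun v : t => (z + Sum.elim (gm q s t ρ1 ρ2 a) (sgm ρ1 ρ2 κ1 κ2 (gm q s t ρ1 ρ2 a)))
        (Sum.inl (Sum.inr v)))
      (fun v : t => (z + Sum.elim (gm q s t ρ1 ρ2 a) (sgm ρ1 ρ2 κ1 κ2 (gm q s t ρ1 ρ2 a)))
        (Sum.inr (Sum.inr v))) : t ⊕ t → ℂ) =
      Sum.elim (fun v => z (Sum.inl (Sum.inr v))) (fun v => z (Sum.inr (Sum.inr v))) +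
        Sum.elim (lamS q t ρ2 a.2) (fun v => κ2 v * (starRingEnd ℂ) (pt q t a.2 v)) := by
    funext i
    rcases i with u | u
    · simp [gm]
    · have hr : ρ2 u ≠ 0 := h2.rho u u.2
      simp [gm, sgm, lamS]
      left
      exact mul_div_cancel_left₀ _ ((map_ne_zero _).2 hr)
  unfold Vx
  rw [e1, e2, vx_qp f h1.ps _ _ _ (h1.qp a.1), vx_qp g h2.ps _ _ _ (h2.qp a.2)]
  have e3 : lm q κ1 κ2 a (fun i => z (Sum.inl i)) + cm c1 c2 a =
      (∑ u : s, κ1 u * (starRingEnd ℂ) (pt q s a.1 u) *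
          (Sum.elim (fun u => z (Sum.inl (Sum.inl u))) (fun u => z (Sum.inr (Sum.inl u))) :
            s ⊕ s → ℂ) (Sum.inl u) + c1 a.1) +
      (∑ v : t, κ2 v * (starRingEnd ℂ) (pt q t a.2 v) *
          (Sum.elim (fun v => z (Sum.inl (Sum.inr v))) (fun v => z (Sum.inr (Sum.inr v))) :
            t ⊕ t → ℂ) (Sum.inl v) + c2 a.2) := by
    simp only [lm, cm, AddMonoidHom.coe_mk, ZeroHom.coe_mk, LinearMap.add_apply,
      LinearMap.coe_sum, Finset.sum_apply, LinearMap.smul_apply, LinearMap.proj_apply,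
      smul_eq_mul, Sum.elim_inl]
    ring
  rw [e3, Complex.exp_add (_ + c1 a.1)]
  ring

/-- Polynomial dependence on the vertical variables of the product functions. -/
private theorem Vx_poly (h1 : IsTh0 q s ρ1 κ1 c1 f) (h2 : IsTh0 q t ρ2 κ2 c2 g) (L : ℕ)
    (j : JJ s t L) (z : s ⊕ t → ℂ) :
    ∃ P : MvPolynomial (s ⊕ t) ℂ, P.totalDegree ≤ q * L ∧
      ∀ w : s ⊕ t → ℂ, Vx f g j (Sum.elim z w) = MvPolynomial.eval w P := by
  obtain ⟨P1, d1, -, -, ev1⟩ := vx_poly f h1.ps (fun u => (j.1 u : ℕ))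
    (fun u => z (Sum.inl u))
  obtain ⟨P2, d2, -, -, ev2⟩ := vx_poly g h2.ps (fun v => (j.2 v : ℕ))
    (fun v => z (Sum.inr v))
  refine ⟨MvPolynomial.rename Sum.inl P1 * MvPolynomial.rename Sum.inr P2, ?_, fun w => ?_⟩
  · have c1 : ∑ u, (j.1 u : ℕ) ≤ Fintype.card s * L := by
      refine (Finset.sum_le_card_nsmul _ _ L fun u _ => Nat.lt_succ_iff.1 (j.1 u).2).trans ?_
      rw [Finset.card_univ, smul_eq_mul]
    have c2 : ∑ v, (j.2 v : ℕ) ≤ Fintype.card t * L := by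
      refine (Finset.sum_le_card_nsmul _ _ L fun v _ => Nat.lt_succ_iff.1 (j.2 v).2).trans ?_
      rw [Finset.card_univ, smul_eq_mul]
    have k1 := two_card_le h1.half
    have k2 := two_card_le h2.half
    have k3 : Fintype.card s + Fintype.card t ≤ q := by omega
    calc (MvPolynomial.rename Sum.inl P1 * MvPolynomial.rename Sum.inr P2).totalDegree
        ≤ (MvPolynomial.rename Sum.inl P1).totalDegree +
          (MvPolynomial.rename Sum.inr P2).totalDegree := MvPolynomial.totalDegree_mul _ _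
      _ ≤ P1.totalDegree + P2.totalDegree := add_le_add (MvPolynomial.totalDegree_rename_le _ _)
          (MvPolynomial.totalDegree_rename_le _ _)
      _ ≤ Fintype.card s * L + Fintype.card t * L := add_le_add (d1.trans c1) (d2.trans c2)
      _ = (Fintype.card s + Fintype.card t) * L := by ring
      _ ≤ q * L := Nat.mul_le_mul_right L k3
  · rw [map_mul, MvPolynomial.eval_rename, MvPolynomial.eval_rename]
    have := ev1 (w ∘ Sum.inl)
    have h' := ev2 (w ∘ Sum.inr)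
    rw [← this, ← h']
    rfl

/-- Proof. Differentiable: `vx_diff` composed with linear maps, products and sums. Quasi-periodicity: the shift by
`Sum.elim (gm a) (sgm (gm a))` is, in the first factor, `lamS q s ρ1 a.1` in the abelian and
`κ1 u * conj (ρ1 u * P(ζ^u) / ρ1 u) = κ1 u * conj (pt q s a.1 u)` in the vertical variables (`ρ1 u ≠ 0`), so
`vx_qp` applies (as in `V_per`); the exponents add up to `lm a (x ∘ inl) + cm a`, independent of `j`, so it factors out of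
the sum. Polynomial in the vertical variables: `vx_poly` for both factors, rename the variables
(`MvPolynomial.rename Sum.inl`, `Sum.inr`), product, total degree `≤ ∑ j.1 u + ∑ j.2 v ≤ (card s + card t) L ≤ q L`
(`card s ≤ (q-1)/2`: `u ∈ s → q - u ∉ s`, `s ⊆ [1, q-1]`, so `2 card s ≤ q - 1`), linear combination
(`MvPolynomial.totalDegree_finset_sum`). -/
theorem V_theta (h1 : IsTh0 q s ρ1 κ1 c1 f) (h2 : IsTh0 q t ρ2 κ2 c2 g) (L : ℕ)
    (b : JJ s t L → ℂ) :
    Theta2 (gm q s t ρ1 ρ2) (lm q κ1 κ2) (cm c1 c2) (sgm ρ1 ρ2 κ1 κ2) 1 (q * L)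
      (fun x => ∑ j, b j * Vx f g j x) := by
  refine ⟨?_, ?_, ?_⟩
  · refine Differentiable.fun_sum fun j _ => (differentiable_const _).mul ?_
    refine Differentiable.mul ?_ ?_
    · refine (vx_diff f h1.ps _).comp ?_
      rw [differentiable_pi]
      rintro (u | u)
      · exact differentiable_apply _
      · exact differentiable_apply _
    · refine (vx_diff g h2.ps _).comp ?_
      rw [differentiable_pi]
      rintro (u | u)
      · exact differentiable_apply _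
      · exact differentiable_apply _
  · intro a z
    simp only [Nat.cast_one, one_mul]
    rw [Finset.mul_sum]
    refine Finset.sum_congr rfl fun j _ => ?_
    rw [Vx_shift q s t ρ1 ρ2 κ1 κ2 c1 c2 f g h1 h2 L j a z]
    ring
  · intro z
    choose P hP hw using fun j => Vx_poly q s t ρ1 ρ2 κ1 κ2 c1 c2 f g h1 h2 L j z
    refine ⟨∑ j, MvPolynomial.C (b j) * P j, ?_, fun w => ?_⟩
    · refine MvPolynomial.totalDegree_finsetSum_le fun j _ => ?_
      refine (MvPolynomial.totalDegree_mul _ _).trans ?_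
      rw [MvPolynomial.totalDegree_C, zero_add]
      exact hP j
    · rw [map_sum]
      refine Finset.sum_congr rfl fun j _ => ?_
      rw [map_mul, MvPolynomial.eval_C, hw j w]


end


theorem V_ne (h1 : IsTh0 q s ρ1 κ1 c1 f) (h2 : IsTh0 q t ρ2 κ2 c2 g) (L : ℕ)
    (b : JJ s t L → ℂ) (hb : b ≠ 0) : ∃ x, ∑ j, b j * Vx f g j x ≠ 0 := by
  by_contra hc
  push Not at hc
  have h3 := prod_indep _ _ (vx_indep f h1.ps h1.ne L) (vx_indep g h2.ps h2.ne L)
  rw [Fintype.linearIndependent_iff] at h3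
  apply hb
  funext j
  refine h3 b ?_ j
  funext y
  have h4 := hc (Sum.elim (Sum.elim (fun u => y.1 (Sum.inl u)) (fun v => y.2 (Sum.inl v)))
    (Sum.elim (fun u => y.1 (Sum.inr u)) (fun v => y.2 (Sum.inr v))))
  rw [Finset.sum_apply, Pi.zero_apply, ← h4]
  refine Finset.sum_congr rfl fun k _ => ?_
  have e1 : (Sum.elim (fun u => y.1 (Sum.inl u)) (fun u => y.1 (Sum.inr u)) : s ⊕ s → ℂ) = y.1 := by
    funext i
    rcases i with i | i <;> rfl
  have e2 : (Sum.elim (fun u => y.2 (Sum.inl u)) (fun u => y.2 (Sum.inr u)) : t ⊕ t → ℂ) = y.2 := by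
    funext i
    rcases i with i | i <;> rfl
  simp only [Pi.smul_apply, smul_eq_mul, Vx, Sum.elim_inl, Sum.elim_inr]
  rw [e1, e2]


end

end Pool.Agent.Helper53.LE
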